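import Mathlib

/-!
# From Borel measures to finitely supported ones

For a bounded continuous function `k` on `V × V`, a bound for `∑∑ w_i w_j k(p_i,p_j)` for all finite
families of points of a nonempty set `S` with nonnegative weights of total mass one gives
the same bound for `∫∫ k dμ dμ` for every Borel probability measure carried by `S`.
-/

namespace H45FT

open MeasureTheory Filter Topology Finset

variable {V : Type*} [PseudoMetricSpace V] [SecondCountableTopology V] [MeasurableSpace V]
  [BorelSpace V]

omit [PseudoMetricSpace V] [SecondCountableTopology V] [BorelSpace V] in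
/-- integral of a function composed with a simple function -/
theorem integral_comp_simpleFunc (μ : Measure V) [IsProbabilityMeasure μ] (f : SimpleFunc V V)
    (g : V → ℝ) : ∫ x, g (f x) ∂μ = ∑ v ∈ f.range, μ.real (f ⁻¹' {v}) * g v := by
  classical
  have h : (fun x => g (f x)) = fun x => ∑ v ∈ f.range, (f ⁻¹' {v}).indicator (fun _ => g v) x := by
    funext x
    rw [Finset.sum_eq_single (f x)]
    · simp
    · intro v _ hv
      rw [Set.indicator_of_notMem]
      simp only [Set.mem_preimage, Set.mem_singleton_iff]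
      exact fun h => hv h.symm
    · intro h; exact absurd (SimpleFunc.mem_range_self f x) h
  rw [h, integral_finsetSum]
  · refine Finset.sum_congr rfl fun v _ => ?_
    rw [integral_indicator_const _ (SimpleFunc.measurableSet_preimage f {v}), smul_eq_mul]
  · intro v _
    exact (integrable_const _).indicator (SimpleFunc.measurableSet_preimage f {v})

theorem integral_integral_le_of_finite (μ : Measure V) [IsProbabilityMeasure μ] {S : Set V}
    (hS : μ Sᶜ = 0) (k : V → V → ℝ) (hk : Continuous (fun p : V × V => k p.1 p.2)) {B : ℝ}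
    (hB : ∀ x y, |k x y| ≤ B) {C : ℝ}
    (h : ∀ (s : Finset V) (w : V → ℝ), (∀ v ∈ s, v ∈ S) → (∀ v ∈ s, 0 ≤ w v) →
      ∑ v ∈ s, w v = 1 → ∑ v ∈ s, ∑ u ∈ s, w v * w u * k v u ≤ C) :
    ∫ x, ∫ y, k x y ∂μ ∂μ ≤ C := by
  classical
  have hne : S.Nonempty := by
    by_contra hc
    rw [Set.not_nonempty_iff_eq_empty] at hc
    rw [hc, Set.compl_empty, measure_univ] at hS
    exact one_ne_zero hS
  obtain ⟨y0, hy0⟩ := hne
  let f : ℕ → SimpleFunc V V := fun n => SimpleFunc.approxOn id measurable_id S y0 hy0 n
  have hf : ∀ x ∈ S, Tendsto (fun n => f n x) atTop (𝓝 x) := fun x hx => by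
    simpa using SimpleFunc.tendsto_approxOn (f := id) measurable_id hy0 (x := x)
      (subset_closure hx)
  have hae : ∀ᵐ x ∂μ, x ∈ S := by
    rw [ae_iff]; exact hS
  have hmem : ∀ n x, f n x ∈ S := fun n x => SimpleFunc.approxOn_mem measurable_id hy0 n x
  -- inner limit
  have hkx : ∀ x, Continuous (fun y => k x y) := fun x =>
    hk.comp (f := fun y => (x, y)) (continuous_const.prodMk continuous_id)
  have hin : ∀ x ∈ S, Tendsto (fun n => ∫ y, k (f n x) (f n y) ∂μ) atTop
      (𝓝 (∫ y, k x y ∂μ)) := by
    intro x hx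
    refine tendsto_integral_of_dominated_convergence (fun _ => B) ?_ (integrable_const _) ?_ ?_
    · intro n
      exact ((hkx (f n x)).measurable.comp (f n).measurable).aestronglyMeasurable
    · intro n
      exact ae_of_all _ fun y => hB _ _
    · filter_upwards [hae] with y hy
      exact (hk.tendsto (x, y)).comp ((hf x hx).prodMk_nhds (hf y hy))
  have hout : Tendsto (fun n => ∫ x, ∫ y, k (f n x) (f n y) ∂μ ∂μ) atTop
      (𝓝 (∫ x, ∫ y, k x y ∂μ ∂μ)) := by
    refine tendsto_integral_of_dominated_convergence (fun _ => B) ?_ (integrable_const _) ?_ ?_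
    · intro n
      have : (fun x => ∫ y, k (f n x) (f n y) ∂μ)
          = (f n).map (fun v => ∫ y, k v (f n y) ∂μ) := by
        funext x; simp
      rw [this]
      exact (SimpleFunc.measurable _).aestronglyMeasurable
    · intro n
      refine ae_of_all _ fun x => ?_
      rw [Real.norm_eq_abs]
      have h1 : |∫ y, k (f n x) (f n y) ∂μ| ≤ B * μ.real Set.univ := by
        rw [← Real.norm_eq_abs]
        exact norm_integral_le_of_norm_le_const (ae_of_all _ fun y => hB _ _)
      simpa using h1
    · filter_upwards [hae] with x hx using hin x hx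
  refine le_of_tendsto hout (Eventually.of_forall fun n => ?_)
  have e1 : ∀ v, ∫ y, k v (f n y) ∂μ = ∑ u ∈ (f n).range, μ.real (f n ⁻¹' {u}) * k v u :=
    fun v => integral_comp_simpleFunc μ (f n) (k v)
  have e2 : ∫ x, ∫ y, k (f n x) (f n y) ∂μ ∂μ = ∑ v ∈ (f n).range, ∑ u ∈ (f n).range,
      μ.real (f n ⁻¹' {v}) * μ.real (f n ⁻¹' {u}) * k v u := by
    rw [integral_comp_simpleFunc μ (f n) (fun v => ∫ y, k v (f n y) ∂μ)]
    refine Finset.sum_congr rfl fun v _ => ?_
    rw [e1, Finset.mul_sum]
    exact Finset.sum_congr rfl fun u _ => by ring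
  show ∫ x, ∫ y, k (f n x) (f n y) ∂μ ∂μ ≤ C
  rw [e2]
  refine h _ _ ?_ ?_ ?_
  · intro v hv
    obtain ⟨x, rfl⟩ := SimpleFunc.mem_range.mp hv
    exact hmem n x
  · intro v _; exact measureReal_nonneg
  · have := integral_comp_simpleFunc μ (f n) (fun _ => (1 : ℝ))
    simpa using this.symm

end H45FT
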