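import Pool.Agent.H45.FT.Cert3

/-!
# The range of the three angles in the sorted certificate
-/

namespace H45FT

theorem gram3_one_factor (a b c : ℝ) : gram3 1 a b c =
    (Real.cos (Real.pi / 2 * (a - b)) - Real.cos (Real.pi / 2 * c)) *
      (Real.cos (Real.pi / 2 * c) - Real.cos (Real.pi / 2 * (a + b))) := by
  unfold gram3
  have h1 := Real.sin_sq_add_cos_sq (Real.pi / 2 * a)
  have h2 := Real.sin_sq_add_cos_sq (Real.pi / 2 * b)
  have e1 : Real.pi / 2 * (a - b) = Real.pi / 2 * a - Real.pi / 2 * b := by ring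
  have e2 : Real.pi / 2 * (a + b) = Real.pi / 2 * a + Real.pi / 2 * b := by ring
  rw [e1, e2, Real.cos_sub, Real.cos_add]
  linear_combination (Real.cos (Real.pi / 2 * b) ^ 2 - 1) * h1 -
    Real.sin (Real.pi / 2 * a) ^ 2 * h2

theorem gram3_neg_factor (a b c : ℝ) : gram3 (-1) a b c =
    (Real.cos (Real.pi / 2 * (a - b)) + Real.cos (Real.pi / 2 * c)) *
      (-Real.cos (Real.pi / 2 * c) - Real.cos (Real.pi / 2 * (a + b))) := by
  unfold gram3
  have h1 := Real.sin_sq_add_cos_sq (Real.pi / 2 * a)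
  have h2 := Real.sin_sq_add_cos_sq (Real.pi / 2 * b)
  have e1 : Real.pi / 2 * (a - b) = Real.pi / 2 * a - Real.pi / 2 * b := by ring
  have e2 : Real.pi / 2 * (a + b) = Real.pi / 2 * a + Real.pi / 2 * b := by ring
  rw [e1, e2, Real.cos_sub, Real.cos_add]
  linear_combination (Real.cos (Real.pi / 2 * b) ^ 2 - 1) * h1 -
    Real.sin (Real.pi / 2 * a) ^ 2 * h2

theorem gram3_one_nonneg_iff {a b c : ℝ} (ha : 0 < a) (hab : a ≤ b) (hbc : b ≤ c) (hc : c ≤ 1) :
    0 ≤ gram3 1 a b c ↔ c ≤ a + b := by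
  have hpi := Real.pi_pos
  rw [gram3_one_factor]
  have h1 : Real.cos (Real.pi / 2 * c) < Real.cos (Real.pi / 2 * (a - b)) := by
    rw [← Real.cos_neg (Real.pi / 2 * (a - b))]
    apply Real.cos_lt_cos_of_nonneg_of_le_pi
    · nlinarith
    · nlinarith
    · nlinarith
  have h2 : 0 < Real.cos (Real.pi / 2 * (a - b)) - Real.cos (Real.pi / 2 * c) := by linarith
  rw [mul_nonneg_iff_of_pos_left h2, sub_nonneg,
    Real.strictAntiOn_cos.le_iff_ge (a := Real.pi / 2 * (a + b)) (b := Real.pi / 2 * c)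
      ⟨by nlinarith, by nlinarith⟩ ⟨by nlinarith, by nlinarith⟩]
  constructor
  · intro h; nlinarith
  · intro h; nlinarith

theorem gram3_neg_nonneg_iff {a b c : ℝ} (ha : 0 < a) (hab : a ≤ b) (hbc : b ≤ c) (hc : c ≤ 1) :
    0 ≤ gram3 (-1) a b c ↔ 2 ≤ a + b + c := by
  have hpi := Real.pi_pos
  rw [gram3_neg_factor]
  have h1 : 0 < Real.cos (Real.pi / 2 * (a - b)) := by
    rw [← Real.cos_neg (Real.pi / 2 * (a - b))]
    apply Real.cos_pos_of_mem_Ioo
    constructor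
    · nlinarith
    · nlinarith
  have h0 : 0 ≤ Real.cos (Real.pi / 2 * c) := cos_half_nonneg ⟨by linarith, hc⟩
  have h2 : 0 < Real.cos (Real.pi / 2 * (a - b)) + Real.cos (Real.pi / 2 * c) := by linarith
  rw [mul_nonneg_iff_of_pos_left h2, sub_nonneg, ← Real.cos_pi_sub,
    Real.strictAntiOn_cos.le_iff_ge (a := Real.pi / 2 * (a + b)) (b := Real.pi - Real.pi / 2 * c)
      ⟨by nlinarith, by nlinarith⟩ ⟨by nlinarith, by nlinarith⟩]
  constructor
  · intro h; nlinarith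
  · intro h; nlinarith

/-- The certificate from its two ranges of sorted angles. -/
theorem cert3_of_ranges
    (h1 : ∀ a b c : ℝ, 0 < a → a ≤ b → b ≤ c → c ≤ 1 → c ≤ a + b →
      S3 1 a b c ≤ 2 - (a + b + c))
    (h2 : ∀ a b c : ℝ, 0 < a → a ≤ b → b ≤ c → c ≤ 1 → 2 ≤ a + b + c →
      S3 (-1) a b c ≤ 2 - (a + b + c)) : Cert3 := by
  refine cert3_of_sorted fun a b c ha hab hbc hc σ hσ hg => ?_
  rcases hσ with rfl | rfl
  · exact h1 a b c ha hab hbc hc ((gram3_one_nonneg_iff ha hab hbc hc).mp hg)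
  · exact h2 a b c ha hab hbc hc ((gram3_neg_nonneg_iff ha hab hbc hc).mp hg)

/-- the dihedral cosines lie in `[-1, 1]` when the Gram determinant is nonnegative -/
theorem dih_abs_le {σ a b c : ℝ} (hσ : σ = 1 ∨ σ = -1) (ha : 0 < a) (ha1 : a ≤ 1)
    (hb : 0 < b) (hb1 : b ≤ 1) (hg : 0 ≤ gram3 σ a b c) : |dih σ a b c| ≤ 1 := by
  have hs1 := sin_half_pos ha ha1
  have hs2 := sin_half_pos hb hb1
  have hs := mul_pos hs1 hs2
  unfold dih
  rw [abs_div, abs_of_pos hs, div_le_one hs]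
  apply abs_le_of_sq_le_sq _ hs.le
  have h1 := Real.sin_sq_add_cos_sq (Real.pi / 2 * a)
  have h2 := Real.sin_sq_add_cos_sq (Real.pi / 2 * b)
  have hs2 : σ ^ 2 = 1 := by rcases hσ with rfl | rfl <;> norm_num
  unfold gram3 at hg
  have e : (Real.sin (Real.pi / 2 * a) * Real.sin (Real.pi / 2 * b)) ^ 2 -
      (σ * Real.cos (Real.pi / 2 * c) - Real.cos (Real.pi / 2 * a) *
        Real.cos (Real.pi / 2 * b)) ^ 2 =
      1 - Real.cos (Real.pi / 2 * a) ^ 2 - Real.cos (Real.pi / 2 * b) ^ 2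
      - Real.cos (Real.pi / 2 * c) ^ 2
      + 2 * σ * Real.cos (Real.pi / 2 * a) * Real.cos (Real.pi / 2 * b) *
        Real.cos (Real.pi / 2 * c) := by
    have e1 : Real.sin (Real.pi / 2 * a) ^ 2 = 1 - Real.cos (Real.pi / 2 * a) ^ 2 := by linarith
    have e2 : Real.sin (Real.pi / 2 * b) ^ 2 = 1 - Real.cos (Real.pi / 2 * b) ^ 2 := by linarith
    rw [mul_pow, e1, e2]
    linear_combination (-Real.cos (Real.pi / 2 * c) ^ 2) * hs2
  linarith

end H45FT
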