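import Pool.Agent.H45.FT.Bessel

/-!
# The explicit kernels of the `d = 2` certificate and their positivity
-/

namespace H45FT

open Finset MeasureTheory

/-- Brownian-bridge like kernel, odd about `1/2`. -/
noncomputable def bridge (a b : ℝ) : ℝ := min a b + max (a + b - 1) 0 - 2 * a * b

/-- `D(a) = 1 - 2a - cos πa`. -/
noncomputable def Dfun (a : ℝ) : ℝ := 1 - 2 * a - Real.cos (Real.pi * a)

theorem Dfun_reflect (a : ℝ) : Dfun (1 - a) = -Dfun a := by
  unfold Dfun
  rw [show Real.pi * (1 - a) = Real.pi - Real.pi * a by ring, Real.cos_pi_sub]; ring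

/-- constant `π²/4 - 2`. -/
noncomputable def ND : ℝ := Real.pi ^ 2 / 4 - 2

theorem ND_pos : 0 < ND := by
  unfold ND; nlinarith [Real.pi_gt_three]

theorem ND_le : ND ≤ 1 / 2 := by
  unfold ND
  have := Real.pi_lt_d2
  have h0 := Real.pi_pos
  nlinarith

theorem integral_sin_pi (a : ℝ) :
    ∫ t in (0 : ℝ)..a, Real.sin (Real.pi * t) = (1 - Real.cos (Real.pi * a)) / Real.pi := by
  have hpi := Real.pi_ne_zero
  have h : ∀ t ∈ Set.uIcc 0 a,
      HasDerivAt (fun t => -Real.cos (Real.pi * t) / Real.pi) (Real.sin (Real.pi * t)) t := by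
    intro t _
    have h1 : HasDerivAt (fun t => Real.pi * t) Real.pi t := by
      simpa using (hasDerivAt_id t).const_mul Real.pi
    have h2 : HasDerivAt (fun t => -Real.cos (Real.pi * t) / Real.pi)
        (-(-Real.sin (Real.pi * t) * Real.pi) / Real.pi) t :=
      ((Real.hasDerivAt_cos (Real.pi * t)).comp t h1).neg.div_const Real.pi
    refine h2.congr_deriv ?_
    field_simp
  rw [intervalIntegral.integral_eq_sub_of_hasDerivAt h (by
    apply Continuous.intervalIntegrable; fun_prop)]
  simp
  ring

theorem integral_cos_pi (a : ℝ) :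
    ∫ t in (0 : ℝ)..a, Real.cos (Real.pi * t) = Real.sin (Real.pi * a) / Real.pi := by
  have hpi := Real.pi_ne_zero
  have h : ∀ t ∈ Set.uIcc 0 a,
      HasDerivAt (fun t => Real.sin (Real.pi * t) / Real.pi) (Real.cos (Real.pi * t)) t := by
    intro t _
    have h1 : HasDerivAt (fun t => Real.pi * t) Real.pi t := by
      simpa using (hasDerivAt_id t).const_mul Real.pi
    have h2 : HasDerivAt (fun t => Real.sin (Real.pi * t) / Real.pi)
        (Real.cos (Real.pi * t) * Real.pi / Real.pi) t :=
      ((Real.hasDerivAt_sin (Real.pi * t)).comp t h1).div_const Real.pi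
    refine h2.congr_deriv ?_
    field_simp
  rw [intervalIntegral.integral_eq_sub_of_hasDerivAt h (by
    apply Continuous.intervalIntegrable; fun_prop)]
  simp

theorem integral_sin_sq_half :
    ∫ t in (0 : ℝ)..(1 / 2), Real.sin (Real.pi * t) ^ 2 = 1 / 4 := by
  have hpi := Real.pi_ne_zero
  have h : ∀ t ∈ Set.uIcc (0 : ℝ) (1 / 2),
      HasDerivAt (fun t => t / 2 - Real.sin (2 * (Real.pi * t)) / (4 * Real.pi))
        (Real.sin (Real.pi * t) ^ 2) t := by
    intro t _
    have h1 : HasDerivAt (fun t => 2 * (Real.pi * t)) (2 * Real.pi) t := by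
      simpa using ((hasDerivAt_id t).const_mul Real.pi).const_mul 2
    have h2 : HasDerivAt (fun t => t / 2 - Real.sin (2 * (Real.pi * t)) / (4 * Real.pi))
        (1 / 2 - Real.cos (2 * (Real.pi * t)) * (2 * Real.pi) / (4 * Real.pi)) t :=
      ((hasDerivAt_id t).div_const 2).sub
      (((Real.hasDerivAt_sin (2 * (Real.pi * t))).comp t h1).div_const (4 * Real.pi))
    refine h2.congr_deriv ?_
    rw [Real.cos_two_mul, Real.cos_sq']
    field_simp
    ring
  rw [intervalIntegral.integral_eq_sub_of_hasDerivAt h (by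
    apply Continuous.intervalIntegrable; fun_prop)]
  rw [show 2 * (Real.pi * (1 / 2)) = Real.pi by ring]
  simp
  norm_num

theorem integral_cos_sq_half :
    ∫ t in (0 : ℝ)..(1 / 2), Real.cos (Real.pi * t) ^ 2 = 1 / 4 := by
  have h : (fun t : ℝ => Real.cos (Real.pi * t) ^ 2) = fun t => 1 - Real.sin (Real.pi * t) ^ 2 := by
    funext t; rw [Real.cos_sq']
  rw [h, intervalIntegral.integral_sub (by simp) (by
    apply Continuous.intervalIntegrable; fun_prop), integral_sin_sq_half]
  norm_num

theorem psdi_bridge_sub : PSDI (fun a b => bridge a b - Dfun a * Dfun b / ND) := by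
  have hpi := Real.pi_ne_zero
  let m : Set.Icc (0 : ℝ) 1 → ℝ := fun a => min (a : ℝ) (1 - a)
  have hm : ∀ a, m a ∈ Set.Icc (0 : ℝ) (1 / 2) := by
    intro a
    refine ⟨le_min a.2.1 (by linarith [a.2.2]), ?_⟩
    rcases le_total (a : ℝ) (1 / 2) with h | h
    · exact (min_le_left _ _).trans h
    · exact (min_le_right _ _).trans (by linarith)
  let v : Fin 2 → ℝ → ℝ := ![fun _ => 1, fun t => -2 + Real.pi * Real.sin (Real.pi * t)]
  let P : Fin 2 → ℝ → ℝ := ![fun a => a, Dfun]
  let N : Fin 2 → ℝ := ![1 / 2, ND]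
  have hv : ∀ i, Continuous (v i) := by
    intro i
    fin_cases i
    · exact continuous_const
    · show Continuous (fun t => -2 + Real.pi * Real.sin (Real.pi * t))
      fun_prop
  have i01 : ∫ t in (0 : ℝ)..(1 / 2), (-2 + Real.pi * Real.sin (Real.pi * t)) = 0 := by
    rw [intervalIntegral.integral_add (by simp) (by
      apply Continuous.intervalIntegrable; fun_prop), intervalIntegral.integral_const_mul,
      integral_sin_pi, show Real.pi * (1 / 2) = Real.pi / 2 by ring, Real.cos_pi_div_two]
    simp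
  have h := min_bessel (T := 1 / 2) (by norm_num) m hm Finset.univ v hv N (by
      intro i _; fin_cases i
      · show (0 : ℝ) < 1 / 2; norm_num
      · exact ND_pos) (by
      intro i _ j _
      fin_cases i <;> fin_cases j
      · show ∫ t in (0 : ℝ)..(1 / 2), (1 : ℝ) * 1 = 1 / 2
        simp
      · show ∫ t in (0 : ℝ)..(1 / 2), (1 : ℝ) * (-2 + Real.pi * Real.sin (Real.pi * t)) = 0
        simp only [one_mul]; exact i01
      · show ∫ t in (0 : ℝ)..(1 / 2), (-2 + Real.pi * Real.sin (Real.pi * t)) * (1 : ℝ) = 0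
        simp only [mul_one]; exact i01
      · show ∫ t in (0 : ℝ)..(1 / 2), (-2 + Real.pi * Real.sin (Real.pi * t)) *
          (-2 + Real.pi * Real.sin (Real.pi * t)) = ND
        have h1 : (fun t : ℝ => (-2 + Real.pi * Real.sin (Real.pi * t)) *
          (-2 + Real.pi * Real.sin (Real.pi * t))) = fun t => (4 - 4 * Real.pi *
            Real.sin (Real.pi * t)) + Real.pi ^ 2 * Real.sin (Real.pi * t) ^ 2 := by
          funext t; ring
        rw [h1, intervalIntegral.integral_add (by
          apply Continuous.intervalIntegrable; fun_prop) (by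
          apply Continuous.intervalIntegrable; fun_prop), intervalIntegral.integral_sub
          (by simp) (by apply Continuous.intervalIntegrable; fun_prop),
          intervalIntegral.integral_const_mul, intervalIntegral.integral_const_mul,
          integral_sin_pi, integral_sin_sq_half, show Real.pi * (1 / 2) = Real.pi / 2 by ring,
          Real.cos_pi_div_two]
        unfold ND
        simp
        field_simp
        ring) P (by
      intro i _ a _
      fin_cases i
      · show ∫ t in (0 : ℝ)..a, (1 : ℝ) = a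
        simp
      · show ∫ t in (0 : ℝ)..a, (-2 + Real.pi * Real.sin (Real.pi * t)) = Dfun a
        rw [intervalIntegral.integral_add (by simp) (by
          apply Continuous.intervalIntegrable; fun_prop), intervalIntegral.integral_const_mul,
          integral_sin_pi]
        unfold Dfun
        simp
        field_simp
        ring)
  let sgn : Set.Icc (0 : ℝ) 1 → ℝ := fun a => if (a : ℝ) ≤ 1 / 2 then 1 else -1
  refine ((PSD.rankOne sgn).mul h).congr fun a b => ?_
  have hsum : ∑ i ∈ (Finset.univ : Finset (Fin 2)), P i (m a) * P i (m b) / N i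
      = m a * m b / (1 / 2) + Dfun (m a) * Dfun (m b) / ND := by
    rw [Fin.sum_univ_two]; rfl
  rw [hsum]
  show min (a : ℝ) b + max ((a : ℝ) + b - 1) 0 - 2 * a * b - Dfun a * Dfun b / ND =
    sgn a * sgn b * (min (m a) (m b) - (m a * m b / (1 / 2) + Dfun (m a) * Dfun (m b) / ND))
  have ha1 := a.2.1
  have ha2 := a.2.2
  have hb1 := b.2.1
  have hb2 := b.2.2
  have key : ∀ a : Set.Icc (0 : ℝ) 1, (m a = a ∧ sgn a = 1 ∧ (a : ℝ) ≤ 1 / 2) ∨
      (m a = 1 - a ∧ sgn a = -1 ∧ 1 / 2 < (a : ℝ)) := by
    intro a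
    by_cases h : (a : ℝ) ≤ 1 / 2
    · left; exact ⟨min_eq_left (by linarith), if_pos h, h⟩
    · right; push Not at h
      exact ⟨min_eq_right (by linarith), if_neg (not_le.mpr h), h⟩
  rcases key a with ⟨h1, h2, h3⟩ | ⟨h1, h2, h3⟩ <;> rcases key b with ⟨h4, h5, h6⟩ | ⟨h4, h5, h6⟩ <;>
    rw [h1, h2, h4, h5]
  · rw [max_eq_right (by linarith)]; ring
  · rw [Dfun_reflect]
    rw [min_eq_left (by linarith : (a : ℝ) ≤ b)]
    rcases le_total (a : ℝ) (1 - b) with h7 | h7
    · rw [min_eq_left h7, max_eq_right (by linarith)]; ring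
    · rw [min_eq_right h7, max_eq_left (by linarith)]; ring
  · rw [Dfun_reflect]
    rw [min_eq_right (by linarith : (b : ℝ) ≤ a)]
    rcases le_total (1 - a : ℝ) b with h7 | h7
    · rw [min_eq_left h7, max_eq_left (by linarith)]; ring
    · rw [min_eq_right h7, max_eq_right (by linarith)]; ring
  · rw [Dfun_reflect, Dfun_reflect, max_eq_left (by linarith)]
    rcases le_total (a : ℝ) b with h7 | h7
    · rw [min_eq_left h7, min_eq_right (by linarith)]; ring
    · rw [min_eq_right h7, min_eq_left (by linarith)]; ring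

theorem psdi_DD : PSDI (fun a b => Dfun a * Dfun b) := PSDI.rankOne Dfun

theorem psdi_bridge_sub_smul {c : ℝ} (hc : c * ND ≤ 1) :
    PSDI (fun a b => bridge a b - c * (Dfun a * Dfun b)) := by
  have hN := ND_pos
  have h := psdi_bridge_sub.add (psdi_DD.smul (c := 1 / ND - c) (by
    rw [sub_nonneg, le_div_iff₀ hN]; exact hc))
  refine h.congr fun a _ b _ => ?_
  ring

theorem psdi_bridge : PSDI bridge := by
  refine (psdi_bridge_sub_smul (c := 0) (by simp)).congr fun a _ b _ => ?_
  ring

/-- the four-fold minimum kernel minus the leading eigenfunction -/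
theorem psdi_min4_sub : PSDI (fun a b => min (min a b) (min (1 - a) (1 - b)) -
    4 / Real.pi ^ 2 * (Real.sin (Real.pi * a) * Real.sin (Real.pi * b))) := by
  have hpi := Real.pi_ne_zero
  let m : Set.Icc (0 : ℝ) 1 → ℝ := fun a => min (a : ℝ) (1 - a)
  have hm : ∀ a, m a ∈ Set.Icc (0 : ℝ) (1 / 2) := by
    intro a
    refine ⟨le_min a.2.1 (by linarith [a.2.2]), ?_⟩
    rcases le_total (a : ℝ) (1 / 2) with h | h
    · exact (min_le_left _ _).trans h
    · exact (min_le_right _ _).trans (by linarith)
  have h := min_bessel (T := 1 / 2) (by norm_num) m hm (Finset.univ : Finset (Fin 1))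
    (fun _ t => Real.cos (Real.pi * t)) (fun _ => by fun_prop) (fun _ => 1 / 4)
    (fun _ _ => by norm_num) (by
      intro i _ j _
      rw [if_pos (Subsingleton.elim i j)]
      simp only [← sq]
      exact integral_cos_sq_half)
    (fun _ a => Real.sin (Real.pi * a) / Real.pi) (fun _ _ a _ => integral_cos_pi a)
  refine h.congr fun a b => ?_
  have hs : ∀ a : Set.Icc (0 : ℝ) 1, Real.sin (Real.pi * m a) = Real.sin (Real.pi * a) := by
    intro a
    rcases min_choice (a : ℝ) (1 - a) with h | h
    · simp only [m]; rw [h]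
    · simp only [m]; rw [h, mul_sub, mul_one, Real.sin_pi_sub]
  rw [Fin.sum_univ_one, hs, hs]
  have : min (min (a : ℝ) b) (min (1 - a) (1 - b)) = min (m a) (m b) := by
    simp only [m]
    rw [min_min_min_comm]
  show min (min (a : ℝ) b) (min (1 - a) (1 - b)) -
    4 / Real.pi ^ 2 * (Real.sin (Real.pi * a) * Real.sin (Real.pi * b)) = _
  rw [this]
  field_simp

theorem psdi_min4_sub_smul {c : ℝ} (hc : c ≤ 4 / Real.pi ^ 2) :
    PSDI (fun a b => min (min a b) (min (1 - a) (1 - b)) -
    c * (Real.sin (Real.pi * a) * Real.sin (Real.pi * b))) := by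
  have h := psdi_min4_sub.add ((PSDI.rankOne (fun a => Real.sin (Real.pi * a))).smul
    (c := 4 / Real.pi ^ 2 - c) (by linarith))
  refine h.congr fun a _ b _ => ?_
  ring

end H45FT
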