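import Pool.Agent.H45.FT.PSD

/-!
# The arcsine kernel is positive semidefinite; integral kernels; minimum kernels
-/

namespace H45FT

open Finset

variable {X Y : Type*}

theorem PSD.negLog {K : X → X → ℝ} (hK : PSD K) (h1 : ∀ x y, |K x y| < 1) :
    PSD (fun x y => -Real.log (1 - K x y)) := by
  refine hK.powerSeries (c := fun n => ((n : ℝ))⁻¹) (f := fun t => -Real.log (1 - t))
    (fun n => by positivity) (fun x y => ?_)
  have h := Real.hasSum_pow_div_log_of_abs_lt_one (h1 x y)
  have h2 := (hasSum_nat_add_iff' (f := fun n : ℕ => ((n : ℝ))⁻¹ * K x y ^ n)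
    (g := -Real.log (1 - K x y)) 1).mp
  refine h2 ?_
  simp only [Finset.range_one, Finset.sum_singleton, Nat.cast_zero, inv_zero, zero_mul, sub_zero]
  refine h.congr_fun (fun n => ?_)
  push_cast
  rw [div_eq_mul_inv, mul_comm]

/-- `1 / √(1 - K)` is PSD for a PSD kernel with values in `(-1,1)`. -/
theorem PSD.invSqrt {K : X → X → ℝ} (hK : PSD K) (h1 : ∀ x y, |K x y| < 1) :
    PSD (fun x y => 1 / √(1 - K x y)) := by
  refine (((hK.negLog h1).smul (c := 1 / 2) (by norm_num)).exp).congr fun x y => ?_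
  have hpos : 0 < 1 - K x y := by have := (abs_lt.mp (h1 x y)).2; linarith
  rw [show (1 / 2 : ℝ) * -Real.log (1 - K x y) = -(Real.log (1 - K x y) / 2) by ring,
    Real.exp_neg, one_div, ← Real.log_sqrt hpos.le, Real.exp_log (Real.sqrt_pos.mpr hpos)]

/-- The arcsine kernel is PSD. -/
theorem PSD.arcsin {K : X → X → ℝ} (hK : PSD K) (h1 : ∀ x y, |K x y| ≤ 1) :
    PSD (fun x y => Real.arcsin (K x y)) := by
  refine ⟨fun x y => by simp only [hK.1 x y], fun s w => ?_⟩
  set g : ℝ → ℝ := fun r => ∑ x ∈ s, ∑ y ∈ s, w x * w y * Real.arcsin (r * K x y) with hg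
  have hcont : ContinuousOn g (Set.Icc 0 1) := by
    apply Continuous.continuousOn
    refine continuous_finsetSum _ fun x _ => continuous_finsetSum _ fun y _ => ?_
    exact continuous_const.mul (Real.continuous_arcsin.comp (continuous_id.mul continuous_const))
  have hder : ∀ r ∈ Set.Ioo (0 : ℝ) 1, HasDerivAt g
      (∑ x ∈ s, ∑ y ∈ s, w x * w y * (1 / √(1 - (r * K x y) ^ 2) * K x y)) r := by
    intro r hr
    refine HasDerivAt.fun_sum fun x _ => HasDerivAt.fun_sum fun y _ => ?_
    have hlt : |r * K x y| < 1 := by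
      rw [abs_mul, abs_of_pos hr.1]
      have := h1 x y
      have h0 := abs_nonneg (K x y)
      nlinarith [hr.1, hr.2]
    have hd := Real.hasDerivAt_arcsin (x := r * K x y) (ne_of_gt (abs_lt.mp hlt).1)
      (ne_of_lt (abs_lt.mp hlt).2)
    have h2 : HasDerivAt (fun t : ℝ => t * K x y) (K x y) r := by
      simpa using (hasDerivAt_id r).mul_const (K x y)
    exact (hd.comp r h2).const_mul (w x * w y)
  have hmono : MonotoneOn g (Set.Icc 0 1) := by
    refine monotoneOn_of_deriv_nonneg (convex_Icc 0 1) hcont ?_ ?_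
    · rw [interior_Icc]
      intro r hr
      exact (hder r hr).differentiableAt.differentiableWithinAt
    · rw [interior_Icc]
      intro r hr
      rw [(hder r hr).deriv]
      have hlt : ∀ x y, |(r * K x y) ^ 2| < 1 := by
        intro x y
        rw [abs_of_nonneg (sq_nonneg _), sq_lt_one_iff_abs_lt_one, abs_mul, abs_of_pos hr.1]
        have := h1 x y
        have h0 := abs_nonneg (K x y)
        nlinarith [hr.1, hr.2]
      have hP : PSD (fun x y => 1 / √(1 - (r * K x y) ^ 2) * K x y) :=
        (((hK.smul hr.1.le).pow 2).invSqrt hlt).mul hK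
      exact hP.2 s w
  have h01 := hmono (Set.left_mem_Icc.mpr zero_le_one) (Set.right_mem_Icc.mpr zero_le_one)
    zero_le_one
  have hg0 : g 0 = 0 := by simp [hg]
  have hg1 : g 1 = ∑ x ∈ s, ∑ y ∈ s, w x * w y * Real.arcsin (K x y) := by simp [hg]
  rw [hg0, hg1] at h01
  exact h01

open MeasureTheory in
/-- `∫ g x t * g y t dν(t)` is PSD. -/
theorem PSD.integral {T : Type*} [MeasurableSpace T] (ν : Measure T) (g : X → T → ℝ)
    (hint : ∀ x y, Integrable (fun t => g x t * g y t) ν) :
    PSD (fun x y => ∫ t, g x t * g y t ∂ν) := by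
  refine ⟨fun x y => by simp only [mul_comm], fun s w => ?_⟩
  have : ∑ x ∈ s, ∑ y ∈ s, w x * w y * ∫ t, g x t * g y t ∂ν
      = ∫ t, ∑ x ∈ s, ∑ y ∈ s, w x * w y * (g x t * g y t) ∂ν := by
    rw [integral_finsetSum]
    · refine Finset.sum_congr rfl fun x _ => ?_
      rw [integral_finsetSum]
      · exact Finset.sum_congr rfl fun y _ => (integral_const_mul _ _).symm
      · exact fun y _ => (hint x y).const_mul _
    · exact fun x _ => integrable_finsetSum _ fun y _ => (hint x y).const_mul _
  rw [this]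
  refine integral_nonneg fun t => ?_
  exact (PSD.rankOne (fun x => g x t)).2 s w

/-- The kernel `min a b` is PSD on nonnegative reals. -/
theorem PSD.min_real (f : X → ℝ) (hf : ∀ x, 0 ≤ f x) : PSD (fun x y => min (f x) (f y)) := by
  have h := PSD.integral (X := X) (MeasureTheory.volume : MeasureTheory.Measure ℝ)
    (fun x t => Set.indicator (Set.Ioc 0 (f x)) (fun _ => (1 : ℝ)) t) (fun x y => ?_)
  · refine h.congr fun x y => ?_
    have : (fun t => Set.indicator (Set.Ioc 0 (f x)) (fun _ => (1 : ℝ)) t *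
        Set.indicator (Set.Ioc 0 (f y)) (fun _ => (1 : ℝ)) t)
        = Set.indicator (Set.Ioc 0 (min (f x) (f y))) (fun _ => (1 : ℝ)) := by
      funext t
      simp only [Set.indicator_apply, Set.mem_Ioc]
      by_cases h1 : 0 < t <;> by_cases h2 : t ≤ f x <;> by_cases h3 : t ≤ f y <;>
        simp [h1, h2, h3]
    rw [this, MeasureTheory.integral_indicator measurableSet_Ioc,
      MeasureTheory.setIntegral_const]
    rw [MeasureTheory.Measure.real, Real.volume_Ioc, sub_zero,
      ENNReal.toReal_ofReal (le_min (hf x) (hf y)), smul_eq_mul, mul_one]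
  · have : (fun t => Set.indicator (Set.Ioc 0 (f x)) (fun _ => (1 : ℝ)) t *
        Set.indicator (Set.Ioc 0 (f y)) (fun _ => (1 : ℝ)) t)
        = Set.indicator (Set.Ioc 0 (min (f x) (f y))) (fun _ => (1 : ℝ)) := by
      funext t
      simp only [Set.indicator_apply, Set.mem_Ioc]
      by_cases h1 : 0 < t <;> by_cases h2 : t ≤ f x <;> by_cases h3 : t ≤ f y <;>
        simp [h1, h2, h3]
    rw [this, MeasureTheory.integrable_indicator_iff measurableSet_Ioc]
    exact MeasureTheory.integrableOn_const (by simp)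

end H45FT
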