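import Pool.Agent.H45.FT.Zonal

/-!
# Bessel type refinement of the minimum kernel
-/

namespace H45FT

open Finset MeasureTheory

theorem min_bessel {X : Type*} {T : ℝ} (hT : 0 ≤ T) (f : X → ℝ) (hf : ∀ x, f x ∈ Set.Icc 0 T)
    {ι : Type*} [DecidableEq ι] (s : Finset ι) (v : ι → ℝ → ℝ) (hv : ∀ i, Continuous (v i))
    (N : ι → ℝ) (hN : ∀ i ∈ s, 0 < N i)
    (hortho : ∀ i ∈ s, ∀ j ∈ s, ∫ t in (0 : ℝ)..T, v i t * v j t = if i = j then N i else 0)
    (P : ι → ℝ → ℝ) (hP : ∀ i ∈ s, ∀ a ∈ Set.Icc 0 T, ∫ t in (0 : ℝ)..a, v i t = P i a) :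
    PSD (fun x y => min (f x) (f y) - ∑ i ∈ s, P i (f x) * P i (f y) / N i) := by
  classical
  let e : X → ℝ → ℝ := fun x t => (Set.Ioc 0 (f x)).indicator (fun _ => (1 : ℝ)) t
  let r : X → ℝ → ℝ := fun x t => ∑ i ∈ s, (P i (f x) / N i) * v i t
  let ν : Measure ℝ := volume.restrict (Set.Ioc 0 T)
  have hrc : ∀ x, Continuous (r x) := fun x =>
    continuous_finsetSum _ fun i _ => continuous_const.mul (hv i)
  have hci : ∀ g : ℝ → ℝ, Continuous g → Integrable g ν := fun g hg =>
    (hg.integrableOn_Icc (a := 0) (b := T)).mono_set Set.Ioc_subset_Icc_self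
  have hee : ∀ x y, (fun t => e x t * e y t) = (Set.Ioc 0 (min (f x) (f y))).indicator
      (fun _ => (1 : ℝ)) := by
    intro x y
    funext t
    simp only [e, Set.indicator_apply, Set.mem_Ioc]
    by_cases h1 : 0 < t <;> by_cases h2 : t ≤ f x <;> by_cases h3 : t ≤ f y <;>
      simp [h1, h2, h3]
  have heg : ∀ (x : X) (g : ℝ → ℝ), (fun t => e x t * g t) = (Set.Ioc 0 (f x)).indicator g := by
    intro x g
    funext t
    simp only [e, Set.indicator_apply]
    split_ifs <;> simp
  have hie : ∀ x y, Integrable (fun t => e x t * e y t) ν := by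
    intro x y
    rw [hee, integrable_indicator_iff measurableSet_Ioc]
    exact integrableOn_const (by
      refine ne_of_lt (lt_of_le_of_lt (Measure.restrict_apply_le _ _) ?_)
      simp)
  have hieg : ∀ (x : X) (g : ℝ → ℝ), Continuous g → Integrable (fun t => e x t * g t) ν := by
    intro x g hg
    rw [heg, integrable_indicator_iff measurableSet_Ioc]
    exact (hci g hg).integrableOn
  have iee : ∀ x y, ∫ t, e x t * e y t ∂ν = min (f x) (f y) := by
    intro x y
    rw [hee, integral_indicator measurableSet_Ioc]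
    simp only [ν]
    rw [Measure.restrict_restrict measurableSet_Ioc]
    have hsub : Set.Ioc 0 (min (f x) (f y)) ∩ Set.Ioc 0 T = Set.Ioc 0 (min (f x) (f y)) := by
      apply Set.inter_eq_left.mpr
      exact Set.Ioc_subset_Ioc_right ((min_le_left _ _).trans (hf x).2)
    rw [hsub, setIntegral_const, Measure.real, Real.volume_Ioc, sub_zero,
      ENNReal.toReal_ofReal (le_min (hf x).1 (hf y).1), smul_eq_mul, mul_one]
  have ieg : ∀ (x : X) (g : ℝ → ℝ), ∫ t, e x t * g t ∂ν = ∫ t in (0 : ℝ)..(f x), g t := by
    intro x g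
    rw [heg, integral_indicator measurableSet_Ioc]
    simp only [ν]
    rw [Measure.restrict_restrict measurableSet_Ioc]
    have hsub : Set.Ioc 0 (f x) ∩ Set.Ioc 0 T = Set.Ioc 0 (f x) := by
      apply Set.inter_eq_left.mpr
      exact Set.Ioc_subset_Ioc_right (hf x).2
    rw [hsub, intervalIntegral.integral_of_le (hf x).1]
  have igg : ∀ g : ℝ → ℝ, ∫ t, g t ∂ν = ∫ t in (0 : ℝ)..T, g t := by
    intro g
    rw [intervalIntegral.integral_of_le hT]
  have ier : ∀ x y, ∫ t, e x t * r y t ∂ν = ∑ i ∈ s, P i (f x) * P i (f y) / N i := by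
    intro x y
    rw [ieg, intervalIntegral.integral_finsetSum]
    · refine Finset.sum_congr rfl fun i hi => ?_
      rw [intervalIntegral.integral_const_mul, hP i hi (f x) (hf x)]; ring
    · intro i _
      exact (continuous_const.mul (hv i)).intervalIntegrable _ _
  have irr : ∀ x y, ∫ t, r x t * r y t ∂ν = ∑ i ∈ s, P i (f x) * P i (f y) / N i := by
    intro x y
    have h1 : (fun t => r x t * r y t) = fun t => ∑ i ∈ s, ∑ j ∈ s,
        (P i (f x) / N i) * (P j (f y) / N j) * (v i t * v j t) := by
      funext t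
      simp only [r]
      rw [Finset.sum_mul_sum]
      exact Finset.sum_congr rfl fun i _ => Finset.sum_congr rfl fun j _ => by ring
    rw [h1, igg, intervalIntegral.integral_finsetSum]
    · refine Finset.sum_congr rfl fun i hi => ?_
      rw [intervalIntegral.integral_finsetSum]
      · calc ∑ j ∈ s, ∫ t in (0 : ℝ)..T, (P i (f x) / N i) * (P j (f y) / N j) * (v i t * v j t)
            = ∑ j ∈ s, (P i (f x) / N i) * (P j (f y) / N j) * (if i = j then N i else 0) := by
              refine Finset.sum_congr rfl fun j hj => ?_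
              rw [intervalIntegral.integral_const_mul, hortho i hi j hj]
          _ = (P i (f x) / N i) * (P i (f y) / N i) * N i := by
              simp only [mul_ite, mul_zero]
              rw [Finset.sum_ite_eq s i, if_pos hi]
          _ = P i (f x) * P i (f y) / N i := by
              have := (hN i hi).ne'
              field_simp
      · intro j _
        exact (continuous_const.mul ((hv i).mul (hv j))).intervalIntegrable _ _
    · intro i _
      apply Continuous.intervalIntegrable
      exact continuous_finsetSum _ fun j _ => continuous_const.mul ((hv i).mul (hv j))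
  have hintegrable : ∀ x y, Integrable (fun t => (e x t - r x t) * (e y t - r y t)) ν := by
    intro x y
    have h1 : (fun t => (e x t - r x t) * (e y t - r y t)) = fun t =>
        e x t * e y t - e x t * r y t - e y t * r x t + r x t * r y t := by
      funext t; ring
    rw [h1]
    exact (((hie x y).sub (hieg x _ (hrc y))).sub (hieg y _ (hrc x))).add
      (hci _ ((hrc x).mul (hrc y)))
  have h := PSD.integral ν (fun x t => e x t - r x t) hintegrable
  refine h.congr fun x y => ?_
  have h1 : (fun t => (e x t - r x t) * (e y t - r y t)) = fun t =>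
      e x t * e y t - e x t * r y t - e y t * r x t + r x t * r y t := by
    funext t; ring
  show _ = ∫ t, (e x t - r x t) * (e y t - r y t) ∂ν
  rw [h1, integral_add, integral_sub, integral_sub, iee, ier, ier, irr]
  · have : ∑ i ∈ s, P i (f y) * P i (f x) / N i = ∑ i ∈ s, P i (f x) * P i (f y) / N i :=
      Finset.sum_congr rfl fun i _ => by ring
    rw [this]; ring
  · exact hie x y
  · exact hieg x _ (hrc y)
  · exact (hie x y).sub (hieg x _ (hrc y))
  · exact hieg y _ (hrc x)
  · exact ((hie x y).sub (hieg x _ (hrc y))).sub (hieg y _ (hrc x))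
  · exact hci _ ((hrc x).mul (hrc y))

end H45FT
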