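import Pool.Agent.H45.FT.Kern2

/-!
# The `d = 2` certificate: reduction to an explicit real inequality
-/

namespace H45FT

open Finset

/-- `q(b) = (9/4) b - (5/4) sin²(π b/2)` -/
noncomputable def qf (b : ℝ) : ℝ := 9 / 4 * b - 5 / 4 * Real.sin (Real.pi / 2 * b) ^ 2

/-- kernel multiplying `1/2 - γ` -/
noncomputable def Wg (k al a b : ℝ) : ℝ := (1 - 4 * k) * (a * b) + (1 + 2 * k) * (1 - al) * bridge a b

/-- kernel multiplying `(cos 2ĝ)/2` -/
noncomputable def W2 (k al a b : ℝ) : ℝ := 4 * k * (qf a * qf b) + (1 + 2 * k) * al * bridge a b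

/-- kernel multiplying `cos ĝ` -/
noncomputable def V1 (k x a b : ℝ) : ℝ :=
  (x - k) * (Real.sin (Real.pi * a) * Real.sin (Real.pi * b))

/-- kernel multiplying `1 - Γ` -/
noncomputable def VP (k x a b : ℝ) : ℝ :=
  (1 + 2 * k) * min (min a b) (min (1 - a) (1 - b)) -
    x * (Real.sin (Real.pi * a) * Real.sin (Real.pi * b))

/-- the function `U_*` -/
noncomputable def Ustar (k a b : ℝ) : ℝ :=
  (1 + 2 * k) * max (1 / 2 - max a b) (min a b - 1 / 2) +
    k * (a + b - 1 + (Real.cos (Real.pi * a) + Real.cos (Real.pi * b)) / 2 -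
      Real.cos (Real.pi * a) * Real.cos (Real.pi * b))

/-- kernel multiplying `1` -/
noncomputable def Uk (k al a b : ℝ) : ℝ :=
  1 / 6 + Ustar k a b - (Wg k al a b + W2 k al a b) / 2

theorem bridge_zero_left {b : ℝ} (hb : b ∈ Set.Icc (0 : ℝ) 1) : bridge 0 b = 0 := by
  unfold bridge
  rw [min_eq_left hb.1, max_eq_right (by linarith [hb.2])]; ring

theorem psdi_Wg {k al : ℝ} (hk0 : 0 ≤ k) (hk : k ≤ 1 / 4) (hal : al ≤ 1) :
    PSDI (Wg k al) := by
  refine (((PSDI.rankOne (fun a => a)).smul (c := 1 - 4 * k) (by linarith)).add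
    (psdi_bridge.smul (c := (1 + 2 * k) * (1 - al)) (by
      apply mul_nonneg <;> linarith))).congr fun a _ b _ => ?_
  rfl

theorem psdi_W2 {k al : ℝ} (hk0 : 0 ≤ k) (hal : 0 ≤ al) : PSDI (W2 k al) := by
  refine (((PSDI.rankOne qf).smul (c := 4 * k) (by linarith)).add
    (psdi_bridge.smul (c := (1 + 2 * k) * al) (by positivity))).congr fun a _ b _ => ?_
  rfl

theorem psdi_V1 {k x : ℝ} (h : k ≤ x) : PSDI (V1 k x) := by
  refine ((PSDI.rankOne (fun a => Real.sin (Real.pi * a))).smul (c := x - k)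
    (by linarith)).congr fun a _ b _ => ?_
  rfl

theorem psdi_VP {k x : ℝ} (hk0 : 0 ≤ k) (hx : x ≤ (1 + 2 * k) * (4 / Real.pi ^ 2)) :
    PSDI (VP k x) := by
  have h1 : 0 < 1 + 2 * k := by linarith
  refine ((psdi_min4_sub_smul (c := x / (1 + 2 * k)) (by
    rw [div_le_iff₀ h1]; linarith)).smul (c := 1 + 2 * k) h1.le).congr fun a _ b _ => ?_
  unfold VP
  field_simp

/-- `max(1/2 - max, min - 1/2)` in terms of the bridge kernel -/
theorem max_eq_bridge (a b : ℝ) :
    max (1 / 2 - max a b) (min a b - 1 / 2) = bridge a b + (1 - 2 * a) * (1 - 2 * b) / 2 := by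
  unfold bridge
  rcases le_total a b with h | h <;> rcases le_total (a + b - 1) 0 with h2 | h2
  · rw [max_eq_right h, min_eq_left h, max_eq_left (by linarith), max_eq_right h2]; ring
  · rw [max_eq_right h, min_eq_left h, max_eq_right (by linarith), max_eq_left h2]; ring
  · rw [max_eq_left h, min_eq_right h, max_eq_left (by linarith), max_eq_right h2]; ring
  · rw [max_eq_left h, min_eq_right h, max_eq_right (by linarith), max_eq_left h2]; ring

theorem psdi_Uk {k al : ℝ} (hk0 : 0 ≤ k) (hk : k ≤ 1 / 4) : PSDI (Uk k al) := by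
  have h1 : 0 < 1 + 2 * k := by linarith
  have hN := ND_le
  have hN0 := ND_pos
  have e1 : PSDI (fun a b => ((2 - 3 * a) + 3 * k / 2 * Dfun a) *
      ((2 - 3 * b) + 3 * k / 2 * Dfun b)) := PSDI.rankOne (fun a => (2 - 3 * a) + 3 * k / 2 * Dfun a)
  have e2 := psdi_bridge_sub_smul (c := 2) (by linarith)
  have e3 := psdi_DD.smul (c := (1 + 2 * k) - (57 * k / 32 + 3 * k ^ 2 / 8)) (by nlinarith)
  refine (((e1.smul (c := 1 / 6) (by norm_num)).add
    (e2.smul (c := (1 + 2 * k) / 2) (by linarith))).add e3).congr fun a _ b _ => ?_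
  unfold Uk Ustar Wg W2
  rw [max_eq_bridge]
  have hq : ∀ t, qf t = t - 5 / 8 * Dfun t := by
    intro t
    unfold qf Dfun
    rw [Real.sin_sq_eq_half_sub, show 2 * (Real.pi / 2 * t) = Real.pi * t by ring]
    ring
  have hc : ∀ t, Real.cos (Real.pi * t) = 1 - 2 * t - Dfun t := by
    intro t; unfold Dfun; ring
  rw [hq, hq, hc, hc]
  ring

/-- The symmetrised three-point kernel at one vertex with sides `a,b` and dihedral cosine `t`. -/
noncomputable def Kf (k al x a b t : ℝ) : ℝ :=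
  Uk k al a b + (Wg k al a b * (1 / 2 - 2 / Real.pi * Real.arccos |t|) +
    W2 k al a b * ((2 * t ^ 2 - 1) / 2) + V1 k x a b * t +
    VP k x a b * (1 - 2 / Real.pi * Real.arccos t))

/-- The explicit pointwise inequality of the `d = 2` certificate. -/
def Cert2 (k al x : ℝ) : Prop :=
  ∀ a ∈ Set.Icc (0 : ℝ) 1, ∀ b ∈ Set.Icc (0 : ℝ) 1, ∀ c ∈ Set.Icc (0 : ℝ) 1,
    ∀ σ : ℝ, (σ = 1 ∨ σ = -1) → 0 ≤ gram3 σ a b c →
      Kf k al x a b (dih σ a b c) + Kf k al x b c (dih σ b c a) + Kf k al x c a (dih σ c a b)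
        ≤ 2 - (a + b + c)

theorem d2_of_cert {k al x : ℝ} (hk0 : 0 ≤ k) (hk : k ≤ 1 / 4) (hal0 : 0 ≤ al) (hal : al ≤ 1)
    (hkx : k ≤ x) (hx : x ≤ (1 + 2 * k) * (4 / Real.pi ^ 2)) (hC : Cert2 k al x)
    (μ : MeasureTheory.Measure (EuclideanSpace ℝ (Fin (2 + 1))))
    (hμ : MeasureTheory.IsProbabilityMeasure μ)
    (hS : μ (Metric.sphere (0 : EuclideanSpace ℝ (Fin (2 + 1))) 1)ᶜ = 0) :
    ∫ x, ∫ y, Real.arccos |@inner ℝ _ _ x y| ∂μ ∂μ ≤ Real.pi / 2 * (2 / 3) := by
  let Wf : Fin 4 → ℝ → ℝ → ℝ := ![Wg k al, W2 k al, V1 k x, VP k x]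
  let pf : Fin 4 → ℝ → ℝ := ![fun t => 1 / 2 - 2 / Real.pi * Real.arccos |t|,
    fun t => (2 * t ^ 2 - 1) / 2, fun t => t, fun t => 1 - 2 / Real.pi * Real.arccos t]
  refine integral_le_of_certificate (d := 2) (by norm_num) Finset.univ (Uk k al)
    (psdi_Uk hk0 hk) Wf pf ?_ ?_ ?_ ?_ μ hμ hS
  · intro i _
    fin_cases i
    · exact psdi_Wg hk0 hk hal
    · exact psdi_W2 hk0 hal0
    · exact psdi_V1 hkx
    · exact psdi_VP hk0 hx
  · intro i _ b hb
    fin_cases i
    · show Wg k al 0 b = 0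
      unfold Wg; rw [bridge_zero_left hb]; ring
    · show W2 k al 0 b = 0
      unfold W2 qf; rw [bridge_zero_left hb]; simp
    · show V1 k x 0 b = 0
      unfold V1; simp
    · show VP k x 0 b = 0
      unfold VP
      rw [min_eq_left hb.1, min_eq_left (le_min (by norm_num) (by linarith [hb.2]))]
      simp
  · intro i _
    fin_cases i
    · exact zonal_half_sub_gamma
    · exact (zonal_cos_two.smul (c := 1 / 2) (by norm_num)).congr fun t _ => by
        show (2 * t ^ 2 - 1) / 2 = 1 / 2 * (2 * t ^ 2 - 1)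
        ring
    · exact zonal_id 2
    · exact zonal_one_sub_Gamma 2
  · intro a ha b hb c hc σ hσ hg
    have h := hC a ha b hb c hc σ hσ hg
    have e : ∀ (a b t : ℝ), Uk k al a b + ∑ i ∈ (Finset.univ : Finset (Fin 4)), Wf i a b * pf i t
        = Kf k al x a b t := by
      intro a b t
      rw [Fin.sum_univ_four]
      rfl
    unfold certSum
    rw [e, e, e]
    linarith

end H45FT
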