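import Pool.Agent.H45.FT.Cert2

/-!
# The `d = 2` certificate, second kernel (rank one in `Om`)
-/

namespace H45FT

open Finset

/-- `Om a = 3a - sin²(π a/2)` -/
noncomputable def Om (a : ℝ) : ℝ := 3 * a - Real.sin (Real.pi / 2 * a) ^ 2

theorem Om_eq (a : ℝ) : Om a = 2 * a - Dfun a / 2 := by
  unfold Om Dfun
  rw [Real.sin_sq_eq_half_sub, show 2 * (Real.pi / 2 * a) = Real.pi * a by ring]
  ring

/-- kernel multiplying `1/2 - γ` -/
noncomputable def Wg3 (a b : ℝ) : ℝ := 3 / 20 * (Om a * Om b) + 6 / 5 * bridge a b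

/-- kernel multiplying `(cos 2ĝ)/2` -/
noncomputable def W23 (a b : ℝ) : ℝ := 1 / 10 * (Om a * Om b)

/-- kernel multiplying `cos ĝ` -/
noncomputable def V13 (a b : ℝ) : ℝ := 1 / 10 * (Real.sin (Real.pi * a) * Real.sin (Real.pi * b))

/-- kernel multiplying `1 - Γ` -/
noncomputable def VP3 (a b : ℝ) : ℝ :=
  6 / 5 * min (min a b) (min (1 - a) (1 - b)) -
    1 / 5 * (Real.sin (Real.pi * a) * Real.sin (Real.pi * b))

/-- kernel multiplying `1` -/
noncomputable def U3 (a b : ℝ) : ℝ :=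
  1 / 6 + Ustar (1 / 10) a b - (Wg3 a b + W23 a b) / 2

theorem psdi_Wg3 : PSDI Wg3 :=
  (((PSDI.rankOne Om).smul (c := 3 / 20) (by norm_num)).add
    (psdi_bridge.smul (c := 6 / 5) (by norm_num))).congr fun a _ b _ => rfl

theorem psdi_W23 : PSDI W23 :=
  ((PSDI.rankOne Om).smul (c := 1 / 10) (by norm_num)).congr fun a _ b _ => rfl

theorem psdi_V13 : PSDI V13 :=
  ((PSDI.rankOne (fun a => Real.sin (Real.pi * a))).smul (c := 1 / 10)
    (by norm_num)).congr fun a _ b _ => rfl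

theorem psdi_VP3 : PSDI VP3 := by
  have h : (1 : ℝ) / 6 ≤ 4 / Real.pi ^ 2 := by
    have h1 := Real.pi_lt_d2
    have h0 := Real.pi_pos
    rw [le_div_iff₀ (by positivity)]
    nlinarith
  refine ((psdi_min4_sub_smul (c := 1 / 6) h).smul (c := 6 / 5) (by norm_num)).congr
    fun a _ b _ => ?_
  unfold VP3
  ring

theorem psdi_U3 : PSDI U3 := by
  have hN := ND_le
  have hN0 := ND_pos
  have e1 : PSDI (fun a b => ((2 - 3 * a) + 3 / 20 * Dfun a) *
      ((2 - 3 * b) + 3 / 20 * Dfun b)) := PSDI.rankOne (fun a => (2 - 3 * a) + 3 / 20 * Dfun a)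
  have e2 := psdi_bridge_sub_smul (c := 9 / 40) (by linarith)
  refine ((e1.smul (c := 1 / 6) (by norm_num)).add
    (e2.smul (c := 3 / 5) (by norm_num))).congr fun a _ b _ => ?_
  unfold U3 Ustar Wg3 W23
  rw [max_eq_bridge]
  have hc : ∀ t, Real.cos (Real.pi * t) = 1 - 2 * t - Dfun t := by
    intro t; unfold Dfun; ring
  rw [Om_eq, Om_eq, hc, hc]
  ring

/-- The symmetrised three-point kernel at one vertex with sides `a,b` and dihedral cosine `t`. -/
noncomputable def Kf3 (a b t : ℝ) : ℝ :=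
  U3 a b + (Wg3 a b * (1 / 2 - 2 / Real.pi * Real.arccos |t|) +
    W23 a b * ((2 * t ^ 2 - 1) / 2) + V13 a b * t +
    VP3 a b * (1 - 2 / Real.pi * Real.arccos t))

/-- the left side of the pointwise inequality -/
noncomputable def S3 (σ a b c : ℝ) : ℝ :=
  Kf3 a b (dih σ a b c) + Kf3 b c (dih σ b c a) + Kf3 c a (dih σ c a b)

/-- The explicit pointwise inequality of the `d = 2` certificate. -/
def Cert3 : Prop :=
  ∀ a ∈ Set.Icc (0 : ℝ) 1, ∀ b ∈ Set.Icc (0 : ℝ) 1, ∀ c ∈ Set.Icc (0 : ℝ) 1,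
    ∀ σ : ℝ, (σ = 1 ∨ σ = -1) → 0 ≤ gram3 σ a b c →
      Kf3 a b (dih σ a b c) + Kf3 b c (dih σ b c a) + Kf3 c a (dih σ c a b) ≤ 2 - (a + b + c)

theorem Om_zero : Om 0 = 0 := by unfold Om; simp

theorem Wg3_zero {b : ℝ} (hb : b ∈ Set.Icc (0 : ℝ) 1) : Wg3 0 b = 0 := by
  unfold Wg3; rw [bridge_zero_left hb, Om_zero]; ring

theorem W23_zero (b : ℝ) : W23 0 b = 0 := by unfold W23; rw [Om_zero]; ring

theorem V13_zero (b : ℝ) : V13 0 b = 0 := by unfold V13; simp

theorem VP3_zero {b : ℝ} (hb : b ∈ Set.Icc (0 : ℝ) 1) : VP3 0 b = 0 := by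
  unfold VP3
  rw [min_eq_left hb.1, min_eq_left (le_min (by norm_num) (by linarith [hb.2]))]
  simp

/-- The integral Fejes Tóth inequality for `d = 2` from the pointwise inequality `Cert3`. -/
theorem d2_of_cert3 (hC : Cert3)
    (μ : MeasureTheory.Measure (EuclideanSpace ℝ (Fin (2 + 1))))
    (hμ : MeasureTheory.IsProbabilityMeasure μ)
    (hS : μ (Metric.sphere (0 : EuclideanSpace ℝ (Fin (2 + 1))) 1)ᶜ = 0) :
    ∫ x, ∫ y, Real.arccos |@inner ℝ _ _ x y| ∂μ ∂μ ≤ Real.pi / 2 * (2 / 3) := by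
  let Wf : Fin 4 → ℝ → ℝ → ℝ := ![Wg3, W23, V13, VP3]
  let pf : Fin 4 → ℝ → ℝ := ![fun t => 1 / 2 - 2 / Real.pi * Real.arccos |t|,
    fun t => (2 * t ^ 2 - 1) / 2, fun t => t, fun t => 1 - 2 / Real.pi * Real.arccos t]
  refine integral_le_of_certificate (d := 2) (by norm_num) Finset.univ U3
    psdi_U3 Wf pf ?_ ?_ ?_ ?_ μ hμ hS
  · intro i _
    fin_cases i
    · exact psdi_Wg3
    · exact psdi_W23
    · exact psdi_V13
    · exact psdi_VP3
  · intro i _ b hb
    fin_cases i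
    · exact Wg3_zero hb
    · exact W23_zero b
    · exact V13_zero b
    · exact VP3_zero hb
  · intro i _
    fin_cases i
    · exact zonal_half_sub_gamma
    · exact (zonal_cos_two.smul (c := 1 / 2) (by norm_num)).congr fun t _ => by
        show (2 * t ^ 2 - 1) / 2 = 1 / 2 * (2 * t ^ 2 - 1)
        ring
    · exact zonal_id 2
    · exact zonal_one_sub_Gamma 2
  · intro a ha b hb c hc σ hσ hg
    have h := hC a ha b hb c hc σ hσ hg
    have e : ∀ (a b t : ℝ), U3 a b + ∑ i ∈ (Finset.univ : Finset (Fin 4)), Wf i a b * pf i t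
        = Kf3 a b t := by
      intro a b t
      rw [Fin.sum_univ_four]
      rfl
    unfold certSum
    rw [e, e, e]
    linarith

/-! ### Symmetry -/

theorem bridge_comm (a b : ℝ) : bridge a b = bridge b a := by
  unfold bridge; rw [min_comm, add_comm a b]; ring

theorem Ustar_comm (k a b : ℝ) : Ustar k a b = Ustar k b a := by
  unfold Ustar; rw [min_comm a b, max_comm a b]; ring

theorem Wg3_comm (a b : ℝ) : Wg3 a b = Wg3 b a := by
  unfold Wg3; rw [bridge_comm]; ring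

theorem W23_comm (a b : ℝ) : W23 a b = W23 b a := by unfold W23; ring

theorem V13_comm (a b : ℝ) : V13 a b = V13 b a := by unfold V13; ring

theorem VP3_comm (a b : ℝ) : VP3 a b = VP3 b a := by
  unfold VP3; rw [min_comm a b, min_comm (1 - a) (1 - b)]; ring

theorem U3_comm (a b : ℝ) : U3 a b = U3 b a := by
  unfold U3; rw [Ustar_comm, Wg3_comm, W23_comm]

theorem Kf3_comm (a b t : ℝ) : Kf3 a b t = Kf3 b a t := by
  unfold Kf3; rw [U3_comm, Wg3_comm, W23_comm, V13_comm, VP3_comm]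

theorem S3_rot (σ a b c : ℝ) : S3 σ a b c = S3 σ b c a := by
  unfold S3; ring

theorem S3_swap (σ a b c : ℝ) : S3 σ a b c = S3 σ b a c := by
  unfold S3
  rw [Kf3_comm a b, Kf3_comm b c, Kf3_comm c a, dih_comm σ a b, dih_comm σ b c, dih_comm σ c a]
  ring

theorem gram3_rot (σ a b c : ℝ) : gram3 σ a b c = gram3 σ b c a := by
  unfold gram3; ring

theorem gram3_swap (σ a b c : ℝ) : gram3 σ a b c = gram3 σ b a c := by
  unfold gram3; ring

/-! ### The boundary case `a = 0` -/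

theorem Kf3_zero {b : ℝ} (hb : b ∈ Set.Icc (0 : ℝ) 1) (t : ℝ) :
    Kf3 0 b t = 1 / 6 + 6 / 5 * (1 / 2 - b) + 1 / 10 * (b - 1 / 2 - Real.cos (Real.pi * b) / 2) := by
  unfold Kf3 U3 Ustar
  rw [Wg3_zero hb, W23_zero, V13_zero, VP3_zero hb, min_eq_left hb.1, max_eq_right hb.1,
    max_eq_left (by linarith [hb.2]), mul_zero, Real.cos_zero]
  ring

theorem Kf3_diag {b t : ℝ} (ht : t = 1 ∨ (t = -1 ∧ b = 1)) :
    Kf3 b b t = 1 / 6 + Ustar (1 / 10) b b + t * (V13 b b + VP3 b b) := by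
  unfold Kf3 U3
  rcases ht with rfl | ⟨rfl, rfl⟩
  · rw [abs_one, Real.arccos_one]; ring
  · rw [abs_neg, abs_one, Real.arccos_one, Real.arccos_neg_one]
    have hpi := Real.pi_ne_zero
    field_simp
    ring

theorem cos_half_inj {b c : ℝ} (hb : b ∈ Set.Icc (0 : ℝ) 1) (hc : c ∈ Set.Icc (0 : ℝ) 1)
    (h : Real.cos (Real.pi / 2 * b) = Real.cos (Real.pi / 2 * c)) : b = c := by
  have hpi := Real.pi_pos
  have h1 := Real.injOn_cos ⟨by have := hb.1; positivity, by nlinarith [hb.2]⟩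
    ⟨by have := hc.1; positivity, by nlinarith [hc.2]⟩ h
  have : Real.pi / 2 ≠ 0 := by positivity
  exact mul_left_cancel₀ this h1

theorem cos_half_nonneg {b : ℝ} (hb : b ∈ Set.Icc (0 : ℝ) 1) : 0 ≤ Real.cos (Real.pi / 2 * b) := by
  have hpi := Real.pi_pos
  apply Real.cos_nonneg_of_mem_Icc
  constructor
  · have := hb.1; nlinarith
  · have := hb.2; nlinarith

theorem sin_half_pos {b : ℝ} (hb0 : 0 < b) (hb : b ≤ 1) : 0 < Real.sin (Real.pi / 2 * b) := by
  have hpi := Real.pi_pos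
  apply Real.sin_pos_of_pos_of_lt_pi (by positivity)
  nlinarith

/-- The case `a = 0` of the pointwise inequality (an equality). -/
theorem S3_zero {b c σ : ℝ} (hb : b ∈ Set.Icc (0 : ℝ) 1) (hc : c ∈ Set.Icc (0 : ℝ) 1)
    (hσ : σ = 1 ∨ σ = -1) (hg : 0 ≤ gram3 σ 0 b c) : S3 σ 0 b c ≤ 2 - (0 + b + c) := by
  have hs2 : σ * σ = 1 := by rcases hσ with rfl | rfl <;> norm_num
  have hsq : (Real.cos (Real.pi / 2 * b) - σ * Real.cos (Real.pi / 2 * c)) ^ 2 ≤ 0 := by
    unfold gram3 at hg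
    rw [mul_zero, Real.cos_zero] at hg
    nlinarith [hg, hs2, congrArg (· * Real.cos (Real.pi / 2 * c) ^ 2) hs2]
  have hB : Real.cos (Real.pi / 2 * b) = σ * Real.cos (Real.pi / 2 * c) := by
    have : (Real.cos (Real.pi / 2 * b) - σ * Real.cos (Real.pi / 2 * c)) ^ 2 = 0 :=
      le_antisymm hsq (sq_nonneg _)
    have := pow_eq_zero_iff (two_ne_zero) |>.mp this
    linarith
  rcases hσ with rfl | rfl
  · have hbc : b = c := cos_half_inj hb hc (by rw [hB, one_mul])
    subst hbc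
    unfold S3
    rw [Kf3_zero hb, Kf3_comm b 0, Kf3_zero hb]
    rcases hb.1.eq_or_lt with h0 | h0
    · subst h0
      rw [Kf3_zero (by simp), mul_zero, Real.cos_zero]
      norm_num
    · have hd : dih 1 b b 0 = 1 := by
        unfold dih
        have hs := (sin_half_pos h0 hb.2).ne'
        rw [mul_zero, Real.cos_zero, div_eq_one_iff_eq (mul_ne_zero hs hs)]
        nlinarith [Real.sin_sq_add_cos_sq (Real.pi / 2 * b)]
      rw [hd, Kf3_diag (Or.inl rfl)]
      unfold Ustar V13 VP3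
      have h1 := Real.sin_sq_add_cos_sq (Real.pi * b)
      have h2 : max (1 / 2 - max b b) (min b b - 1 / 2) + min (min b b) (min (1 - b) (1 - b))
          = 1 / 2 := by
        rw [max_self, min_self, min_self]
        rcases le_total b (1 / 2) with h | h
        · rw [max_eq_left (by linarith), min_eq_left (by linarith)]; ring
        · rw [max_eq_right (by linarith), min_eq_right (by linarith)]; ring
      nlinarith [h1, h2]
  · have hB0 := cos_half_nonneg hb
    have hC0 := cos_half_nonneg hc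
    have e1 : Real.cos (Real.pi / 2 * 1) = 0 := by rw [mul_one, Real.cos_pi_div_two]
    have hb1 : b = 1 := cos_half_inj hb (by simp) (by rw [e1]; linarith)
    have hc1 : c = 1 := cos_half_inj hc (by simp) (by rw [e1]; linarith)
    subst hb1
    subst hc1
    unfold S3
    have hd : dih (-1) 1 1 0 = -1 := by
      unfold dih
      rw [mul_zero, Real.cos_zero, mul_one, mul_one, Real.cos_pi_div_two, Real.sin_pi_div_two]
      norm_num
    rw [Kf3_zero hb, Kf3_comm 1 0, Kf3_zero hb, hd, Kf3_diag (Or.inr ⟨rfl, rfl⟩)]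
    unfold Ustar V13 VP3
    rw [mul_one, Real.cos_pi, Real.sin_pi, max_self, min_self, max_eq_right (by norm_num)]
    norm_num

/-- It is enough to prove the pointwise inequality for `0 < a ≤ b ≤ c ≤ 1`. -/
theorem cert3_of_sorted
    (h : ∀ a b c : ℝ, 0 < a → a ≤ b → b ≤ c → c ≤ 1 → ∀ σ : ℝ, (σ = 1 ∨ σ = -1) →
      0 ≤ gram3 σ a b c → S3 σ a b c ≤ 2 - (a + b + c)) : Cert3 := by
  -- the sorted case including `a = 0`
  have key : ∀ a ∈ Set.Icc (0 : ℝ) 1, ∀ b ∈ Set.Icc (0 : ℝ) 1, ∀ c ∈ Set.Icc (0 : ℝ) 1,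
      a ≤ b → b ≤ c → ∀ σ : ℝ, (σ = 1 ∨ σ = -1) → 0 ≤ gram3 σ a b c →
      S3 σ a b c ≤ 2 - (a + b + c) := by
    intro a ha b hb c hc hab hbc σ hσ hg
    rcases ha.1.eq_or_lt with h0 | h0
    · subst h0; exact S3_zero hb hc hσ hg
    · exact h a b c h0 hab hbc hc.2 σ hσ hg
  intro a ha b hb c hc σ hσ hg
  show S3 σ a b c ≤ 2 - (a + b + c)
  have g1 : gram3 σ a c b = gram3 σ a b c := by unfold gram3; ring
  have g2 : gram3 σ b a c = gram3 σ a b c := by unfold gram3; ring
  have g3 : gram3 σ b c a = gram3 σ a b c := by unfold gram3; ring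
  have g4 : gram3 σ c a b = gram3 σ a b c := by unfold gram3; ring
  have g5 : gram3 σ c b a = gram3 σ a b c := by unfold gram3; ring
  have s1 : S3 σ a b c = S3 σ a c b := (S3_swap σ a b c).trans (S3_rot σ b a c)
  have s2 : S3 σ a b c = S3 σ b a c := S3_swap σ a b c
  have s3 : S3 σ a b c = S3 σ b c a := S3_rot σ a b c
  have s4 : S3 σ a b c = S3 σ c a b := (S3_rot σ a b c).trans (S3_rot σ b c a)
  have s5 : S3 σ a b c = S3 σ c b a := (S3_rot σ a b c).trans (S3_swap σ b c a)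
  rcases le_total a b with h1 | h1
  · rcases le_total b c with h2 | h2
    · exact key a ha b hb c hc h1 h2 σ hσ hg
    · rcases le_total a c with h3 | h3
      · have := key a ha c hc b hb h3 h2 σ hσ (by rw [g1]; exact hg)
        rw [s1]; linarith
      · have := key c hc a ha b hb h3 h1 σ hσ (by rw [g4]; exact hg)
        rw [s4]; linarith
  · rcases le_total a c with h2 | h2
    · have := key b hb a ha c hc h1 h2 σ hσ (by rw [g2]; exact hg)
      rw [s2]; linarith
    · rcases le_total b c with h3 | h3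
      · have := key b hb c hc a ha h3 h2 σ hσ (by rw [g3]; exact hg)
        rw [s3]; linarith
      · have := key c hc b hb a ha h3 h1 σ hσ (by rw [g5]; exact hg)
        rw [s5]; linarith

end H45FT
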