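import Pool.Agent.H45.FT.Arcsin
import Pool.Agent.H45.FT.Approx

/-!
# Three-point kernels at a unit vector `z`

For unit vectors `z, x` put `tng z x = x - ⟨z,x⟩ z`, `sg t = 1` if `0 ≤ t` and `-1` otherwise.
The kernel `U(a,b) + ∑ V_i(a,b) p_i(cos)` where `a, b` are the normalised acute angles of `x,z` and
`y,z` and `cos` is the cosine of the directed dihedral angle at `z`, is PSD.
-/

namespace H45FT

open Finset

/-- sign convention: `1` at `0`. -/
noncomputable def sg (t : ℝ) : ℝ := if 0 ≤ t then 1 else -1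

theorem sg_mul_self (t : ℝ) : sg t * sg t = 1 := by
  unfold sg; split_ifs <;> norm_num

theorem sg_mul_abs (t : ℝ) : sg t * |t| = t := by
  unfold sg; split_ifs with h
  · rw [abs_of_nonneg h, one_mul]
  · rw [abs_of_neg (not_le.mp h)]; ring

theorem sg_mul (t : ℝ) : sg t * t = |t| := by
  unfold sg; split_ifs with h
  · rw [abs_of_nonneg h, one_mul]
  · rw [abs_of_neg (not_le.mp h)]; ring

theorem sg_eq (t : ℝ) : sg t = 1 ∨ sg t = -1 := by
  unfold sg; split_ifs <;> simp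

/-- Normalised acute angle corresponding to the inner product `t`. -/
noncomputable def ang (t : ℝ) : ℝ := 2 / Real.pi * Real.arccos |t|

theorem ang_nonneg (t : ℝ) : 0 ≤ ang t := by
  unfold ang; have := Real.arccos_nonneg |t|; have := Real.pi_pos; positivity

theorem ang_le_one (t : ℝ) : ang t ≤ 1 := by
  unfold ang
  have h : Real.arccos |t| ≤ Real.pi / 2 := Real.arccos_le_pi_div_two.mpr (abs_nonneg t)
  have hp := Real.pi_pos
  calc 2 / Real.pi * Real.arccos |t| ≤ 2 / Real.pi * (Real.pi / 2) := by gcongr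
    _ = 1 := by field_simp

theorem ang_mem (t : ℝ) : ang t ∈ Set.Icc (0 : ℝ) 1 := ⟨ang_nonneg t, ang_le_one t⟩

theorem half_pi_ang (t : ℝ) : Real.pi / 2 * ang t = Real.arccos |t| := by
  unfold ang; have := Real.pi_pos; field_simp

theorem cos_ang {t : ℝ} (ht : |t| ≤ 1) : Real.cos (Real.pi / 2 * ang t) = |t| := by
  rw [half_pi_ang, Real.cos_arccos (by linarith [abs_nonneg t]) ht]

theorem sin_ang {t : ℝ} : Real.sin (Real.pi / 2 * ang t) = √(1 - t ^ 2) := by
  rw [half_pi_ang, Real.sin_arccos, sq_abs]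

theorem ang_eq_zero {t : ℝ} (ht : √(1 - t ^ 2) = 0) : ang t = 0 := by
  have h : 1 ≤ |t| := by
    have : 1 - t ^ 2 ≤ 0 := Real.sqrt_eq_zero'.mp ht
    have h2 : 1 ≤ |t| ^ 2 := by rw [sq_abs]; linarith
    by_contra hc
    push Not at hc
    nlinarith [abs_nonneg t]
  unfold ang
  rw [Real.arccos_of_one_le h, mul_zero]

/-- Cosine of the directed dihedral angle at the vertex `z` of the spherical triangle with (acute,
normalised) sides `a, b` at `z`, opposite side `c` and sign `σ`. -/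
noncomputable def dih (σ a b c : ℝ) : ℝ :=
  (σ * Real.cos (Real.pi / 2 * c) - Real.cos (Real.pi / 2 * a) * Real.cos (Real.pi / 2 * b)) /
    (Real.sin (Real.pi / 2 * a) * Real.sin (Real.pi / 2 * b))

theorem dih_comm (σ a b c : ℝ) : dih σ a b c = dih σ b a c := by
  unfold dih
  rw [mul_comm (Real.cos (Real.pi / 2 * a)), mul_comm (Real.sin (Real.pi / 2 * a))]

section
variable {V : Type*} [NormedAddCommGroup V] [InnerProductSpace ℝ V]

/-- tangential component -/
noncomputable def tng (z x : V) : V := x - (inner ℝ z x : ℝ) • z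

theorem inner_tng_tng {z x y : V} (hz : ‖z‖ = 1) :
    inner ℝ (tng z x) (tng z y) = inner ℝ x y - inner ℝ z x * inner ℝ z y := by
  unfold tng
  simp only [inner_sub_left, inner_sub_right, real_inner_smul_left, real_inner_smul_right,
    real_inner_self_eq_norm_sq, hz]
  rw [real_inner_comm z x]
  ring

theorem inner_z_tng {z x : V} (hz : ‖z‖ = 1) : inner ℝ z (tng z x) = 0 := by
  unfold tng
  rw [inner_sub_right, real_inner_smul_right, real_inner_self_eq_norm_sq, hz]; ring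

theorem norm_tng {z x : V} (hz : ‖z‖ = 1) (hx : ‖x‖ = 1) :
    ‖tng z x‖ = √(1 - (inner ℝ z x) ^ 2) := by
  rw [norm_eq_sqrt_real_inner, inner_tng_tng hz, real_inner_self_eq_norm_sq, hx]
  congr 1; ring

/-- unit tangent vector at `z` towards the nearer of `x, -x` (zero if `x = ±z`). -/
noncomputable def dir (z x : V) : V := (sg (inner ℝ z x) * ‖tng z x‖⁻¹) • tng z x

theorem inner_dir_dir {z x y : V} (hz : ‖z‖ = 1) (hx : ‖x‖ = 1) (hy : ‖y‖ = 1) :
    inner ℝ (dir z x) (dir z y) =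
      dih (sg (inner ℝ x y) * sg (inner ℝ y z) * sg (inner ℝ x z))
        (ang (inner ℝ x z)) (ang (inner ℝ y z)) (ang (inner ℝ x y)) := by
  have hle : ∀ u v : V, ‖u‖ = 1 → ‖v‖ = 1 → |inner ℝ u v| ≤ (1 : ℝ) := by
    intro u v hu hv
    have := abs_real_inner_le_norm u v
    rwa [hu, hv, one_mul] at this
  unfold dih
  rw [cos_ang (hle _ _ hx hy), cos_ang (hle _ _ hx hz), cos_ang (hle _ _ hy hz), sin_ang, sin_ang]
  unfold dir
  rw [real_inner_smul_left, real_inner_smul_right, inner_tng_tng hz, norm_tng hz hx,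
    norm_tng hz hy, real_inner_comm x z, real_inner_comm y z]
  set P : ℝ := inner ℝ x z
  set Q : ℝ := inner ℝ y z
  set R : ℝ := inner ℝ x y
  have hR : sg R * |R| = R := sg_mul_abs R
  have hP : sg P * P = |P| := sg_mul P
  have hQ : sg Q * Q = |Q| := sg_mul Q
  rw [show sg R * sg Q * sg P * |R| = sg P * sg Q * (sg R * |R|) by ring, hR, ← hP, ← hQ,
    div_eq_mul_inv, mul_inv]
  ring

end

/-- A function `p` is a positive definite zonal function on the unit sphere of `ℝ^d`. -/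
def Zonal (d : ℕ) (p : ℝ → ℝ) : Prop :=
  PSD (fun e e' : Metric.sphere (0 : EuclideanSpace ℝ (Fin d)) 1 =>
    p (inner ℝ (e : EuclideanSpace ℝ (Fin d)) (e' : EuclideanSpace ℝ (Fin d))))

/-- kernels in the angle variables on `[0,1]` -/
def PSDI (U : ℝ → ℝ → ℝ) : Prop :=
  PSD (fun a b : Set.Icc (0 : ℝ) 1 => U a b)

theorem psd_three_point_term {d : ℕ} (hd : 0 < d) {z : EuclideanSpace ℝ (Fin (d + 1))}
    (hz : ‖z‖ = 1) {W : ℝ → ℝ → ℝ} (hW : PSDI W) (hW0 : ∀ b ∈ Set.Icc (0 : ℝ) 1, W 0 b = 0)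
    {p : ℝ → ℝ} (hp : Zonal d p) :
    PSD (fun x y : Metric.sphere (0 : EuclideanSpace ℝ (Fin (d + 1))) 1 =>
      W (ang (inner ℝ (x : EuclideanSpace ℝ (Fin (d + 1))) z))
        (ang (inner ℝ (y : EuclideanSpace ℝ (Fin (d + 1))) z)) *
      p (inner ℝ (dir z (x : EuclideanSpace ℝ (Fin (d + 1))))
        (dir z (y : EuclideanSpace ℝ (Fin (d + 1)))))) := by
  classical
  have hfr : Fact (Module.finrank ℝ (EuclideanSpace ℝ (Fin (d + 1))) = d + 1) := ⟨by simp⟩
  have hz0 : z ≠ 0 := by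
    intro h; rw [h, norm_zero] at hz; exact zero_ne_one hz
  let b := OrthonormalBasis.fromOrthogonalSpanSingleton (𝕜 := ℝ) d hz0
  have hmem : ∀ x, tng z x ∈ (ℝ ∙ z)ᗮ := by
    intro x
    rw [Submodule.mem_orthogonal_singleton_iff_inner_right]
    exact inner_z_tng hz
  have hdmem : ∀ x, dir z x ∈ (ℝ ∙ z)ᗮ := fun x => Submodule.smul_mem _ _ (hmem x)
  let e0 : EuclideanSpace ℝ (Fin d) := EuclideanSpace.single ⟨0, hd⟩ 1
  have he0 : e0 ∈ Metric.sphere (0 : EuclideanSpace ℝ (Fin d)) 1 := by simp [e0]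
  have hnd : ∀ x, tng z x ≠ 0 → ‖dir z x‖ = 1 := by
    intro x hx
    unfold dir
    rw [norm_smul, norm_mul, norm_inv, norm_norm]
    have h1 : ‖sg (inner ℝ z x : ℝ)‖ = 1 := by
      rcases sg_eq (inner ℝ z x : ℝ) with h | h <;> simp [h]
    rw [h1, one_mul, inv_mul_cancel₀ (norm_ne_zero_iff.mpr hx)]
  let E : Metric.sphere (0 : EuclideanSpace ℝ (Fin (d + 1))) 1 →
      Metric.sphere (0 : EuclideanSpace ℝ (Fin d)) 1 := fun x =>
    if hx : tng z (x : EuclideanSpace ℝ (Fin (d + 1))) = 0 then ⟨e0, he0⟩ else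
      ⟨b.repr ⟨dir z x, hdmem x⟩, by
        rw [mem_sphere_zero_iff_norm, LinearIsometryEquiv.norm_map, Submodule.coe_norm]
        exact hnd x hx⟩
  have h1 : PSD (fun x y : Metric.sphere (0 : EuclideanSpace ℝ (Fin (d + 1))) 1 =>
      W (ang (inner ℝ (x : EuclideanSpace ℝ (Fin (d + 1))) z))
        (ang (inner ℝ (y : EuclideanSpace ℝ (Fin (d + 1))) z))) :=
    PSD.comp hW (fun x : Metric.sphere (0 : EuclideanSpace ℝ (Fin (d + 1))) 1 =>
      ⟨ang (inner ℝ (x : EuclideanSpace ℝ (Fin (d + 1))) z), ang_mem _⟩)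
  have h2 := PSD.comp hp E
  refine (h1.mul h2).congr fun x y => ?_
  have hang : ∀ x : Metric.sphere (0 : EuclideanSpace ℝ (Fin (d + 1))) 1,
      tng z (x : EuclideanSpace ℝ (Fin (d + 1))) = 0 →
      ang (inner ℝ (x : EuclideanSpace ℝ (Fin (d + 1))) z) = 0 := by
    intro x hx
    have hx1 : ‖(x : EuclideanSpace ℝ (Fin (d + 1)))‖ = 1 := mem_sphere_zero_iff_norm.mp x.2
    apply ang_eq_zero
    rw [real_inner_comm, ← norm_tng hz hx1, hx, norm_zero]
  have hsym : ∀ a ∈ Set.Icc (0 : ℝ) 1, W a 0 = 0 := by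
    intro a ha
    have := hW.1 ⟨a, ha⟩ ⟨0, by simp⟩
    simp only at this
    rw [this]; exact hW0 a ha
  by_cases hx : tng z (x : EuclideanSpace ℝ (Fin (d + 1))) = 0
  · rw [hang x hx, hW0 _ (ang_mem _)]; ring
  by_cases hy : tng z (y : EuclideanSpace ℝ (Fin (d + 1))) = 0
  · rw [hang y hy, hsym _ (ang_mem _)]; ring
  simp only [E, hx, hy, dite_false]
  congr 2
  rw [LinearIsometryEquiv.inner_map_map]
  rfl

end H45FT
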