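import Mathlib

/-!
# Positive semidefinite real kernels: a toolbox

`PSD K` : the symmetric kernel `K : X → X → ℝ` is positive semidefinite.
-/

namespace H45FT

open Finset

/-- A real kernel is positive semidefinite if it is symmetric and all its finite sections are. -/
def PSD {X : Type*} (K : X → X → ℝ) : Prop :=
  (∀ x y, K x y = K y x) ∧
    ∀ (s : Finset X) (w : X → ℝ), 0 ≤ ∑ x ∈ s, ∑ y ∈ s, w x * w y * K x y

variable {X Y : Type*}

theorem PSD.symm {K : X → X → ℝ} (h : PSD K) (x y : X) : K x y = K y x := h.1 x y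

theorem psd_iff_posSemidef {K : X → X → ℝ} : PSD K ↔ (Matrix.of K).PosSemidef := by
  constructor
  · rintro ⟨h1, h2⟩
    refine ⟨?_, fun x => ?_⟩
    · ext i j
      simp [Matrix.conjTranspose_apply, h1 i j]
    · have := h2 x.support x
      simp only [Finsupp.sum, Matrix.of_apply, star_trivial]
      refine this.trans (le_of_eq ?_)
      refine Finset.sum_congr rfl fun i _ => Finset.sum_congr rfl fun j _ => ?_
      ring
  · rintro ⟨h1, h2⟩
    refine ⟨fun x y => ?_, fun s w => ?_⟩
    · have := congrFun (congrFun h1 x) y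
      simpa [Matrix.conjTranspose_apply] using this.symm
    · classical
      have := h2 (Finsupp.onFinset s (fun x => if x ∈ s then w x else 0) (by
        intro a ha; by_contra hc; simp [hc] at ha))
      simp only [Matrix.of_apply, star_trivial] at this
      rw [Finsupp.sum_of_support_subset (s := s)] at this
      · refine this.trans (le_of_eq ?_)
        refine Finset.sum_congr rfl fun i hi => ?_
        rw [Finsupp.sum_of_support_subset (s := s)]
        · refine Finset.sum_congr rfl fun j hj => ?_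
          simp only [Finsupp.onFinset_apply, hi, hj, if_true]
          ring
        · exact Finsupp.support_onFinset_subset
        · simp
      · exact Finsupp.support_onFinset_subset
      · simp

/-- Indexed form: nonnegativity for families of points (with repetitions). -/
theorem PSD.family {K : X → X → ℝ} (h : PSD K) {ι : Type*} (s : Finset ι) (p : ι → X)
    (w : ι → ℝ) : 0 ≤ ∑ i ∈ s, ∑ j ∈ s, w i * w j * K (p i) (p j) := by
  classical
  have h2 := h.2 (s.image p) (fun x => ∑ i ∈ s with p i = x, w i)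
  refine h2.trans (le_of_eq ?_)
  have e1 : ∀ f : X → ℝ, ∑ x ∈ s.image p, (∑ i ∈ s with p i = x, w i) * f x
      = ∑ i ∈ s, w i * f (p i) := by
    intro f
    rw [← Finset.sum_fiberwise_of_maps_to (s := s) (t := s.image p) (g := p)
      (fun i hi => Finset.mem_image_of_mem p hi)]
    refine Finset.sum_congr rfl fun x _ => ?_
    rw [Finset.sum_mul]
    refine Finset.sum_congr rfl fun i hi => ?_
    rw [(Finset.mem_filter.mp hi).2]
  calc ∑ x ∈ s.image p, ∑ y ∈ s.image p,
        (∑ i ∈ s with p i = x, w i) * (∑ i ∈ s with p i = y, w i) * K x y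
      = ∑ x ∈ s.image p, (∑ i ∈ s with p i = x, w i) *
          ∑ y ∈ s.image p, (∑ i ∈ s with p i = y, w i) * K x y := by
        refine Finset.sum_congr rfl fun x _ => ?_
        rw [Finset.mul_sum]
        exact Finset.sum_congr rfl fun y _ => by ring
    _ = ∑ x ∈ s.image p, (∑ i ∈ s with p i = x, w i) * ∑ j ∈ s, w j * K x (p j) := by
        refine Finset.sum_congr rfl fun x _ => ?_
        rw [e1 (fun y => K x y)]
    _ = ∑ i ∈ s, w i * ∑ j ∈ s, w j * K (p i) (p j) := e1 (fun x => ∑ j ∈ s, w j * K x (p j))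
    _ = ∑ i ∈ s, ∑ j ∈ s, w i * w j * K (p i) (p j) := by
        refine Finset.sum_congr rfl fun i _ => ?_
        rw [Finset.mul_sum]
        exact Finset.sum_congr rfl fun j _ => by ring

theorem PSD.comp {K : X → X → ℝ} (h : PSD K) (p : Y → X) : PSD (fun a b => K (p a) (p b)) :=
  ⟨fun _ _ => h.1 _ _, fun s w => h.family s p w⟩

theorem PSD.congr {K L : X → X → ℝ} (h : PSD K) (e : ∀ x y, L x y = K x y) : PSD L := by
  have : L = K := by funext x y; exact e x y
  rw [this]; exact h

theorem PSD.zero : PSD (fun _ _ : X => (0 : ℝ)) := ⟨fun _ _ => rfl, fun s w => by simp⟩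

theorem PSD.add {K L : X → X → ℝ} (hK : PSD K) (hL : PSD L) :
    PSD (fun x y => K x y + L x y) := by
  refine ⟨fun x y => by simp only [hK.1 x y, hL.1 x y], fun s w => ?_⟩
  have := add_nonneg (hK.2 s w) (hL.2 s w)
  refine this.trans (le_of_eq ?_)
  simp only [← Finset.sum_add_distrib]
  exact Finset.sum_congr rfl fun i _ => Finset.sum_congr rfl fun j _ => by ring

theorem PSD.smul {K : X → X → ℝ} (hK : PSD K) {c : ℝ} (hc : 0 ≤ c) :
    PSD (fun x y => c * K x y) := by
  refine ⟨fun x y => by simp only [hK.1 x y], fun s w => ?_⟩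
  have := mul_nonneg hc (hK.2 s w)
  refine this.trans (le_of_eq ?_)
  simp only [Finset.mul_sum]
  exact Finset.sum_congr rfl fun i _ => Finset.sum_congr rfl fun j _ => by ring

theorem PSD.sum {ι : Type*} {K : ι → X → X → ℝ} (s : Finset ι) (h : ∀ i ∈ s, PSD (K i)) :
    PSD (fun x y => ∑ i ∈ s, K i x y) := by
  classical
  induction s using Finset.induction_on with
  | empty => simpa using PSD.zero
  | insert a s ha ih =>
    have h1 := (h a (Finset.mem_insert_self a s)).add
      (ih fun i hi => h i (Finset.mem_insert_of_mem hi))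
    exact h1.congr fun x y => Finset.sum_insert ha

/-- Schur product theorem. -/
theorem PSD.mul {K L : X → X → ℝ} (hK : PSD K) (hL : PSD L) :
    PSD (fun x y => K x y * L x y) := by
  rw [psd_iff_posSemidef] at *
  have := hK.hadamard hL
  exact this

theorem PSD.rankOne (f : X → ℝ) : PSD (fun x y => f x * f y) := by
  refine ⟨fun x y => mul_comm _ _, fun s w => ?_⟩
  have : ∑ x ∈ s, ∑ y ∈ s, w x * w y * (f x * f y) = (∑ x ∈ s, w x * f x) ^ 2 := by
    rw [sq, Finset.sum_mul_sum]
    exact Finset.sum_congr rfl fun i _ => Finset.sum_congr rfl fun j _ => by ring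
  rw [this]; positivity

theorem PSD.const {c : ℝ} (hc : 0 ≤ c) : PSD (fun _ _ : X => c) :=
  ((PSD.rankOne (fun _ : X => (1 : ℝ))).smul hc).congr fun x y => by ring

theorem PSD.pow {K : X → X → ℝ} (hK : PSD K) (n : ℕ) : PSD (fun x y => K x y ^ n) := by
  induction n with
  | zero => exact (PSD.const (zero_le_one)).congr fun x y => by simp
  | succ n ih => exact (ih.mul hK).congr fun x y => by rw [pow_succ]

theorem PSD.gram {E : Type*} [NormedAddCommGroup E] [InnerProductSpace ℝ E] (e : X → E) :
    PSD (fun x y => inner ℝ (e x) (e y)) := by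
  refine ⟨fun x y => real_inner_comm _ _, fun s w => ?_⟩
  have : ∑ x ∈ s, ∑ y ∈ s, w x * w y * inner ℝ (e x) (e y)
      = inner ℝ (∑ x ∈ s, w x • e x) (∑ y ∈ s, w y • e y) := by
    rw [sum_inner]
    refine Finset.sum_congr rfl fun i _ => ?_
    rw [inner_sum]
    refine Finset.sum_congr rfl fun j _ => ?_
    rw [real_inner_smul_left, real_inner_smul_right]; ring
  rw [this]; exact real_inner_self_nonneg

/-- Pointwise limits of PSD kernels are PSD. -/
theorem PSD.tendsto {ι : Type*} {l : Filter ι} [l.NeBot] {K : ι → X → X → ℝ} {L : X → X → ℝ}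
    (h : ∀ᶠ i in l, PSD (K i)) (hL : ∀ x y, Filter.Tendsto (fun i => K i x y) l (nhds (L x y))) :
    PSD L := by
  refine ⟨fun x y => ?_, fun s w => ?_⟩
  · refine tendsto_nhds_unique_of_eventuallyEq (hL x y) (hL y x) ?_
    filter_upwards [h] with i hi using hi.1 x y
  · have ht : Filter.Tendsto (fun i => ∑ x ∈ s, ∑ y ∈ s, w x * w y * K i x y) l
        (nhds (∑ x ∈ s, ∑ y ∈ s, w x * w y * L x y)) :=
      tendsto_finsetSum _ fun x _ => tendsto_finsetSum _ fun y _ => (hL x y).const_mul _
    refine ge_of_tendsto ht ?_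
    filter_upwards [h] with i hi using hi.2 s w

theorem PSD.hasSum {K : ℕ → X → X → ℝ} {L : X → X → ℝ}
    (h : ∀ i, PSD (K i)) (hL : ∀ x y, HasSum (fun i => K i x y) (L x y)) :
    PSD L :=
  PSD.tendsto (l := Filter.atTop) (K := fun s x y => ∑ i ∈ s, K i x y)
    (Filter.Eventually.of_forall fun s => PSD.sum s fun i _ => h i) hL

/-- Power series with nonnegative coefficients of a PSD kernel. -/
theorem PSD.powerSeries {K : X → X → ℝ} (hK : PSD K) {c : ℕ → ℝ} (hc : ∀ n, 0 ≤ c n)
    {f : ℝ → ℝ} (hf : ∀ x y, HasSum (fun n => c n * K x y ^ n) (f (K x y))) :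
    PSD (fun x y => f (K x y)) :=
  PSD.hasSum (K := fun n x y => c n * K x y ^ n) (fun n => (hK.pow n).smul (hc n)) hf

theorem PSD.exp {K : X → X → ℝ} (hK : PSD K) : PSD (fun x y => Real.exp (K x y)) := by
  refine hK.powerSeries (c := fun n => ((n.factorial : ℝ))⁻¹) (fun n => by positivity)
    (fun x y => ?_)
  have := NormedSpace.expSeries_div_hasSum_exp (𝔸 := ℝ) (K x y)
  rw [Real.exp_eq_exp_ℝ]
  exact this.congr_fun (fun n => by ring)

end H45FT
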