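import Pool.Agent.H45.FT.Geom

/-!
# Reduction of the integral Fejes Tóth inequality to a pointwise three-point inequality
-/

namespace H45FT

open Finset

theorem PSD.on {X : Type*} {S : Set X} {K : X → X → ℝ} (h : PSD (fun x y : S => K x y))
    (s : Finset X) (hs : ∀ v ∈ s, v ∈ S) (w : X → ℝ) :
    0 ≤ ∑ x ∈ s, ∑ y ∈ s, w x * w y * K x y := by
  have h1 := h.family s.attach (fun i => (⟨i.1, hs i.1 i.2⟩ : S)) (fun i => w i.1)
  simp only at h1
  have h2 : ∀ x ∈ s.attach, ∑ y ∈ s.attach, w x.1 * w y.1 * K x.1 y.1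
      = ∑ y ∈ s, w x.1 * w y * K x.1 y := fun x _ =>
    Finset.sum_attach s (fun y => w x.1 * w y * K x.1 y)
  rw [Finset.sum_congr rfl h2,
    Finset.sum_attach s (fun x => ∑ y ∈ s, w x * w y * K x y)] at h1
  exact h1

/-- the Gram determinant in terms of normalised acute angles and the sign -/
noncomputable def gram3 (σ a b c : ℝ) : ℝ :=
  1 - Real.cos (Real.pi / 2 * a) ^ 2 - Real.cos (Real.pi / 2 * b) ^ 2
    - Real.cos (Real.pi / 2 * c) ^ 2
    + 2 * σ * Real.cos (Real.pi / 2 * a) * Real.cos (Real.pi / 2 * b) * Real.cos (Real.pi / 2 * c)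

section
variable {V : Type*} [NormedAddCommGroup V] [InnerProductSpace ℝ V]

theorem abs_inner_le_one {u v : V} (hu : ‖u‖ = 1) (hv : ‖v‖ = 1) : |inner ℝ u v| ≤ (1 : ℝ) := by
  have := abs_real_inner_le_norm u v
  rwa [hu, hv, one_mul] at this

theorem gram3_nonneg {x y z : V} (hz : ‖z‖ = 1) (hx : ‖x‖ = 1) (hy : ‖y‖ = 1) :
    0 ≤ gram3 (sg (inner ℝ x y) * sg (inner ℝ y z) * sg (inner ℝ x z))
        (ang (inner ℝ x z)) (ang (inner ℝ y z)) (ang (inner ℝ x y)) := by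
  unfold gram3
  rw [cos_ang (abs_inner_le_one hx hy), cos_ang (abs_inner_le_one hx hz),
    cos_ang (abs_inner_le_one hy hz)]
  have h := real_inner_mul_inner_self_le (tng z x) (tng z y)
  rw [inner_tng_tng hz, inner_tng_tng hz, inner_tng_tng hz, real_inner_self_eq_norm_sq,
    real_inner_self_eq_norm_sq, hx, hy, real_inner_comm x z, real_inner_comm y z] at h
  set P : ℝ := inner ℝ x z
  set Q : ℝ := inner ℝ y z
  set R : ℝ := inner ℝ x y
  have hR : sg R * |R| = R := sg_mul_abs R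
  have hP : sg P * |P| = P := sg_mul_abs P
  have hQ : sg Q * |Q| = Q := sg_mul_abs Q
  rw [show 2 * (sg R * sg Q * sg P) * |P| * |Q| * |R|
    = 2 * (sg P * |P|) * (sg Q * |Q|) * (sg R * |R|) by ring, hR, hP, hQ, sq_abs, sq_abs, sq_abs]
  nlinarith [h]

end

/-- the symmetric three-point kernel sum in the angle variables -/
noncomputable def certSum {ι : Type*} (s : Finset ι) (U : ℝ → ℝ → ℝ) (W : ι → ℝ → ℝ → ℝ)
    (p : ι → ℝ → ℝ) (σ a b c : ℝ) : ℝ :=
  (U a b + ∑ i ∈ s, W i a b * p i (dih σ a b c)) +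
  (U b c + ∑ i ∈ s, W i b c * p i (dih σ b c a)) +
  (U c a + ∑ i ∈ s, W i c a * p i (dih σ c a b))

/-- **Reduction theorem**.  A pointwise three-point certificate implies the integral inequality with
constant `C` (all angles in the certificate are normalised by `π/2`). -/
theorem integral_le_of_certificate {d : ℕ} (hd : 0 < d) {ι : Type*} (s : Finset ι)
    (U : ℝ → ℝ → ℝ) (hU : PSDI U) (W : ι → ℝ → ℝ → ℝ) (p : ι → ℝ → ℝ)
    (hW : ∀ i ∈ s, PSDI (W i)) (hW0 : ∀ i ∈ s, ∀ b ∈ Set.Icc (0 : ℝ) 1, W i 0 b = 0)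
    (hp : ∀ i ∈ s, Zonal d (p i)) {C : ℝ}
    (hF : ∀ a ∈ Set.Icc (0 : ℝ) 1, ∀ b ∈ Set.Icc (0 : ℝ) 1, ∀ c ∈ Set.Icc (0 : ℝ) 1,
      ∀ σ : ℝ, (σ = 1 ∨ σ = -1) → 0 ≤ gram3 σ a b c →
      certSum s U W p σ a b c ≤ 3 * C - (a + b + c))
    (μ : MeasureTheory.Measure (EuclideanSpace ℝ (Fin (d + 1))))
    (hμ : MeasureTheory.IsProbabilityMeasure μ)
    (hS : μ (Metric.sphere (0 : EuclideanSpace ℝ (Fin (d + 1))) 1)ᶜ = 0) :
    ∫ x, ∫ y, Real.arccos |@inner ℝ _ _ x y| ∂μ ∂μ ≤ Real.pi / 2 * C := by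
  classical
  refine integral_integral_le_of_finite μ hS (fun x y => Real.arccos |@inner ℝ _ _ x y|)
    (by fun_prop) (B := Real.pi) ?_ ?_
  · intro x y
    rw [abs_of_nonneg (Real.arccos_nonneg _)]
    exact Real.arccos_le_pi _
  intro t w ht hw hw1
  -- the three-point kernel
  let Kz : EuclideanSpace ℝ (Fin (d + 1)) → EuclideanSpace ℝ (Fin (d + 1)) →
      EuclideanSpace ℝ (Fin (d + 1)) → ℝ := fun z x y =>
    U (ang (inner ℝ x z)) (ang (inner ℝ y z)) +
      ∑ i ∈ s, W i (ang (inner ℝ x z)) (ang (inner ℝ y z)) * p i (inner ℝ (dir z x) (dir z y))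
  have hK : ∀ z ∈ t, 0 ≤ ∑ x ∈ t, ∑ y ∈ t, w x * w y * Kz z x y := by
    intro z hz
    have hz1 : ‖z‖ = 1 := mem_sphere_zero_iff_norm.mp (ht z hz)
    have h1 : PSD (fun x y : Metric.sphere (0 : EuclideanSpace ℝ (Fin (d + 1))) 1 =>
        Kz z x y) := by
      refine PSD.add ?_ ?_
      · exact PSD.comp hU (fun x : Metric.sphere (0 : EuclideanSpace ℝ (Fin (d + 1))) 1 =>
          (⟨ang (inner ℝ (x : EuclideanSpace ℝ (Fin (d + 1))) z), ang_mem _⟩ :
            Set.Icc (0 : ℝ) 1))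
      · exact PSD.sum s fun i hi => psd_three_point_term hd hz1 (hW i hi) (hW0 i hi) (hp i hi)
    exact h1.on t ht w
  -- pointwise inequality
  have hpt : ∀ x ∈ t, ∀ y ∈ t, ∀ z ∈ t, Kz z x y + Kz x y z + Kz y z x ≤
      3 * C - (ang (inner ℝ x z) + ang (inner ℝ y z) + ang (inner ℝ x y)) := by
    intro x hx y hy z hz
    have hx1 : ‖x‖ = 1 := mem_sphere_zero_iff_norm.mp (ht x hx)
    have hy1 : ‖y‖ = 1 := mem_sphere_zero_iff_norm.mp (ht y hy)
    have hz1 : ‖z‖ = 1 := mem_sphere_zero_iff_norm.mp (ht z hz)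
    have h := hF (ang (inner ℝ x z)) (ang_mem _) (ang (inner ℝ y z)) (ang_mem _)
      (ang (inner ℝ x y)) (ang_mem _)
      (sg (inner ℝ x y) * sg (inner ℝ y z) * sg (inner ℝ x z)) ?_ (gram3_nonneg hz1 hx1 hy1)
    · refine le_trans (le_of_eq ?_) h
      unfold certSum
      simp only [Kz]
      have e1 := inner_dir_dir hz1 hx1 hy1
      have e2 := inner_dir_dir hx1 hy1 hz1
      have e3 := inner_dir_dir hy1 hz1 hx1
      rw [real_inner_comm x y, real_inner_comm x z] at e2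
      rw [real_inner_comm x z, real_inner_comm y z] at e3
      rw [real_inner_comm x y, real_inner_comm x z, real_inner_comm y z, e1, e2, e3]
      rw [show sg (inner ℝ y z) * sg (inner ℝ x z) * sg (inner ℝ x y)
        = sg (inner ℝ x y) * sg (inner ℝ y z) * sg (inner ℝ x z) by ring]
      rw [show sg (inner ℝ x z) * sg (inner ℝ x y) * sg (inner ℝ y z)
        = sg (inner ℝ x y) * sg (inner ℝ y z) * sg (inner ℝ x z) by ring]
      ring
    · rcases sg_eq (inner ℝ x y : ℝ) with h1 | h1 <;> rcases sg_eq (inner ℝ y z : ℝ) with h2 | h2 <;>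
        rcases sg_eq (inner ℝ x z : ℝ) with h3 | h3 <;> rw [h1, h2, h3] <;> norm_num
  -- summation
  set E : ℝ := ∑ x ∈ t, ∑ y ∈ t, w x * w y * ang (inner ℝ x y) with hE
  have hw1' : ∀ r : ℝ, ∑ z ∈ t, r * w z = r := by
    intro r; rw [← Finset.mul_sum, hw1, mul_one]
  have hsum : ∑ x ∈ t, ∑ y ∈ t, ∑ z ∈ t, w x * w y * w z * (Kz z x y + Kz x y z + Kz y z x) ≤
      ∑ x ∈ t, ∑ y ∈ t, ∑ z ∈ t, w x * w y * w z *
        (3 * C - (ang (inner ℝ x z) + ang (inner ℝ y z) + ang (inner ℝ x y))) := by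
    refine Finset.sum_le_sum fun x hx => Finset.sum_le_sum fun y hy =>
      Finset.sum_le_sum fun z hz => ?_
    exact mul_le_mul_of_nonneg_left (hpt x hx y hy z hz)
      (mul_nonneg (mul_nonneg (hw x hx) (hw y hy)) (hw z hz))
  have hleft : 0 ≤ ∑ x ∈ t, ∑ y ∈ t, ∑ z ∈ t,
      w x * w y * w z * (Kz z x y + Kz x y z + Kz y z x) := by
    have hsplit : ∑ x ∈ t, ∑ y ∈ t, ∑ z ∈ t, w x * w y * w z * (Kz z x y + Kz x y z + Kz y z x)
        = ∑ x ∈ t, ∑ y ∈ t, ∑ z ∈ t, w x * w y * w z * Kz z x y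
        + ∑ x ∈ t, ∑ y ∈ t, ∑ z ∈ t, w x * w y * w z * Kz x y z
        + ∑ x ∈ t, ∑ y ∈ t, ∑ z ∈ t, w x * w y * w z * Kz y z x := by
      simp only [← Finset.sum_add_distrib]
      exact Finset.sum_congr rfl fun x _ => Finset.sum_congr rfl fun y _ =>
        Finset.sum_congr rfl fun z _ => by ring
    rw [hsplit]
    have p1 : 0 ≤ ∑ x ∈ t, ∑ y ∈ t, ∑ z ∈ t, w x * w y * w z * Kz z x y := by
      have : ∑ x ∈ t, ∑ y ∈ t, ∑ z ∈ t, w x * w y * w z * Kz z x y
          = ∑ z ∈ t, w z * ∑ x ∈ t, ∑ y ∈ t, w x * w y * Kz z x y := by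
        calc ∑ x ∈ t, ∑ y ∈ t, ∑ z ∈ t, w x * w y * w z * Kz z x y
            = ∑ x ∈ t, ∑ z ∈ t, ∑ y ∈ t, w x * w y * w z * Kz z x y :=
              Finset.sum_congr rfl fun x _ => Finset.sum_comm
          _ = ∑ z ∈ t, ∑ x ∈ t, ∑ y ∈ t, w x * w y * w z * Kz z x y := Finset.sum_comm
          _ = _ := by
              refine Finset.sum_congr rfl fun z _ => ?_
              rw [Finset.mul_sum]
              refine Finset.sum_congr rfl fun x _ => ?_
              rw [Finset.mul_sum]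
              exact Finset.sum_congr rfl fun y _ => by ring
      rw [this]
      exact Finset.sum_nonneg fun z hz => mul_nonneg (hw z hz) (hK z hz)
    have p2 : 0 ≤ ∑ x ∈ t, ∑ y ∈ t, ∑ z ∈ t, w x * w y * w z * Kz x y z := by
      have : ∑ x ∈ t, ∑ y ∈ t, ∑ z ∈ t, w x * w y * w z * Kz x y z
          = ∑ x ∈ t, w x * ∑ y ∈ t, ∑ z ∈ t, w y * w z * Kz x y z := by
        refine Finset.sum_congr rfl fun x _ => ?_
        rw [Finset.mul_sum]
        refine Finset.sum_congr rfl fun y _ => ?_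
        rw [Finset.mul_sum]
        exact Finset.sum_congr rfl fun z _ => by ring
      rw [this]
      exact Finset.sum_nonneg fun z hz => mul_nonneg (hw z hz) (hK z hz)
    have p3 : 0 ≤ ∑ x ∈ t, ∑ y ∈ t, ∑ z ∈ t, w x * w y * w z * Kz y z x := by
      have : ∑ x ∈ t, ∑ y ∈ t, ∑ z ∈ t, w x * w y * w z * Kz y z x
          = ∑ y ∈ t, w y * ∑ z ∈ t, ∑ x ∈ t, w z * w x * Kz y z x := by
        rw [Finset.sum_comm]
        refine Finset.sum_congr rfl fun y _ => ?_
        rw [Finset.sum_comm, Finset.mul_sum]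
        refine Finset.sum_congr rfl fun z _ => ?_
        rw [Finset.mul_sum]
        exact Finset.sum_congr rfl fun x _ => by ring
      rw [this]
      exact Finset.sum_nonneg fun z hz => mul_nonneg (hw z hz) (hK z hz)
    linarith
  have hright : ∑ x ∈ t, ∑ y ∈ t, ∑ z ∈ t, w x * w y * w z *
        (3 * C - (ang (inner ℝ x z) + ang (inner ℝ y z) + ang (inner ℝ x y))) = 3 * C - 3 * E := by
    have q0 : ∑ x ∈ t, ∑ y ∈ t, ∑ z ∈ t, w x * w y * w z * (3 * C) = 3 * C := by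
      calc ∑ x ∈ t, ∑ y ∈ t, ∑ z ∈ t, w x * w y * w z * (3 * C)
          = ∑ x ∈ t, ∑ y ∈ t, (3 * C * w x) * w y := by
            refine Finset.sum_congr rfl fun x _ => Finset.sum_congr rfl fun y _ => ?_
            rw [← hw1' (3 * C * w x * w y)]
            exact Finset.sum_congr rfl fun z _ => by ring
        _ = ∑ x ∈ t, 3 * C * w x := Finset.sum_congr rfl fun x _ => hw1' _
        _ = 3 * C := hw1' _
    have q1 : ∑ x ∈ t, ∑ y ∈ t, ∑ z ∈ t, w x * w y * w z * ang (inner ℝ x y) = E := by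
      refine Finset.sum_congr rfl fun x _ => Finset.sum_congr rfl fun y _ => ?_
      rw [← hw1' (w x * w y * ang (inner ℝ x y))]
      exact Finset.sum_congr rfl fun z _ => by ring
    have q2 : ∑ x ∈ t, ∑ y ∈ t, ∑ z ∈ t, w x * w y * w z * ang (inner ℝ x z) = E := by
      rw [← q1]
      refine Finset.sum_congr rfl fun x _ => ?_
      rw [Finset.sum_comm]
      exact Finset.sum_congr rfl fun y _ => Finset.sum_congr rfl fun z _ => by ring
    have q3 : ∑ x ∈ t, ∑ y ∈ t, ∑ z ∈ t, w x * w y * w z * ang (inner ℝ y z) = E := by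
      rw [← q2, Finset.sum_comm]
      refine Finset.sum_congr rfl fun x _ => ?_
      exact Finset.sum_congr rfl fun y _ => Finset.sum_congr rfl fun z _ => by ring
    calc _ = ∑ x ∈ t, ∑ y ∈ t, ∑ z ∈ t, w x * w y * w z * (3 * C)
          - (∑ x ∈ t, ∑ y ∈ t, ∑ z ∈ t, w x * w y * w z * ang (inner ℝ x z)
          + ∑ x ∈ t, ∑ y ∈ t, ∑ z ∈ t, w x * w y * w z * ang (inner ℝ y z)
          + ∑ x ∈ t, ∑ y ∈ t, ∑ z ∈ t, w x * w y * w z * ang (inner ℝ x y)) := by
          simp only [← Finset.sum_add_distrib, ← Finset.sum_sub_distrib]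
          exact Finset.sum_congr rfl fun x _ => Finset.sum_congr rfl fun y _ =>
            Finset.sum_congr rfl fun z _ => by ring
      _ = 3 * C - 3 * E := by rw [q0, q1, q2, q3]; ring
  have hEC : E ≤ C := by
    have := hleft.trans (hsum.trans_eq hright)
    linarith
  have hfin : ∑ x ∈ t, ∑ y ∈ t, w x * w y * Real.arccos |@inner ℝ _ _ x y|
      = Real.pi / 2 * E := by
    rw [hE, Finset.mul_sum]
    refine Finset.sum_congr rfl fun x _ => ?_
    rw [Finset.mul_sum]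
    refine Finset.sum_congr rfl fun y _ => ?_
    rw [← half_pi_ang]; ring
  rw [hfin]
  exact mul_le_mul_of_nonneg_left hEC (by positivity)

end H45FT
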