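import Pool.Agent.H45.FT.Reduce

/-!
# Zonal positive definite functions used in the certificates; kernels on `[0,1]`
-/

namespace H45FT

open Finset

theorem Zonal.add {d : ℕ} {p q : ℝ → ℝ} (hp : Zonal d p) (hq : Zonal d q) :
    Zonal d (fun t => p t + q t) := PSD.add hp hq

theorem Zonal.smul {d : ℕ} {p : ℝ → ℝ} (hp : Zonal d p) {c : ℝ} (hc : 0 ≤ c) :
    Zonal d (fun t => c * p t) := PSD.smul hp hc

theorem Zonal.mul {d : ℕ} {p q : ℝ → ℝ} (hp : Zonal d p) (hq : Zonal d q) :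
    Zonal d (fun t => p t * q t) := PSD.mul hp hq

theorem zonal_one (d : ℕ) : Zonal d (fun _ => 1) := PSD.const zero_le_one

theorem zonal_id (d : ℕ) : Zonal d (fun t => t) := PSD.gram _

theorem Zonal.congr {d : ℕ} {p q : ℝ → ℝ} (hp : Zonal d p)
    (h : ∀ t, |t| ≤ 1 → q t = p t) : Zonal d q :=
  PSD.congr hp fun x y => h _ (abs_inner_le_one (mem_sphere_zero_iff_norm.mp x.2)
    (mem_sphere_zero_iff_norm.mp y.2))

theorem Zonal.arcsin {d : ℕ} {p : ℝ → ℝ} (hp : Zonal d p) (h : ∀ t, |t| ≤ 1 → |p t| ≤ 1) :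
    Zonal d (fun t => Real.arcsin (p t)) :=
  PSD.arcsin hp fun x y => h _ (abs_inner_le_one (mem_sphere_zero_iff_norm.mp x.2)
    (mem_sphere_zero_iff_norm.mp y.2))

/-- `1 - Γ` where `Γ = (2/π) arccos t ∈ [0,2]`. -/
theorem zonal_one_sub_Gamma (d : ℕ) : Zonal d (fun t => 1 - 2 / Real.pi * Real.arccos t) := by
  have h := ((zonal_id d).arcsin fun t ht => ht).smul (c := 2 / Real.pi)
    (by have := Real.pi_pos; positivity)
  refine h.congr fun t _ => ?_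
  rw [Real.arccos]
  have := Real.pi_pos
  field_simp
  ring

/-- `cos 2ĝ` on the circle. -/
theorem zonal_cos_two : Zonal 2 (fun t => 2 * t ^ 2 - 1) := by
  have h1 : PSD (fun e e' : Metric.sphere (0 : EuclideanSpace ℝ (Fin 2)) 1 =>
      (fun e : Metric.sphere (0 : EuclideanSpace ℝ (Fin 2)) 1 =>
        (e : EuclideanSpace ℝ (Fin 2)) 0 ^ 2 - (e : EuclideanSpace ℝ (Fin 2)) 1 ^ 2) e *
      (fun e : Metric.sphere (0 : EuclideanSpace ℝ (Fin 2)) 1 =>
        (e : EuclideanSpace ℝ (Fin 2)) 0 ^ 2 - (e : EuclideanSpace ℝ (Fin 2)) 1 ^ 2) e') :=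
    PSD.rankOne _
  have h2 : PSD (fun e e' : Metric.sphere (0 : EuclideanSpace ℝ (Fin 2)) 1 =>
      (fun e : Metric.sphere (0 : EuclideanSpace ℝ (Fin 2)) 1 =>
        2 * (e : EuclideanSpace ℝ (Fin 2)) 0 * (e : EuclideanSpace ℝ (Fin 2)) 1) e *
      (fun e : Metric.sphere (0 : EuclideanSpace ℝ (Fin 2)) 1 =>
        2 * (e : EuclideanSpace ℝ (Fin 2)) 0 * (e : EuclideanSpace ℝ (Fin 2)) 1) e') :=
    PSD.rankOne _
  refine (h1.add h2).congr fun e e' => ?_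
  have n1 : (e : EuclideanSpace ℝ (Fin 2)) 0 ^ 2 + (e : EuclideanSpace ℝ (Fin 2)) 1 ^ 2 = 1 := by
    have := mem_sphere_zero_iff_norm.mp e.2
    rw [EuclideanSpace.norm_eq, Real.sqrt_eq_one] at this
    simpa [Fin.sum_univ_two] using this
  have n2 : (e' : EuclideanSpace ℝ (Fin 2)) 0 ^ 2 + (e' : EuclideanSpace ℝ (Fin 2)) 1 ^ 2 = 1 := by
    have := mem_sphere_zero_iff_norm.mp e'.2
    rw [EuclideanSpace.norm_eq, Real.sqrt_eq_one] at this
    simpa [Fin.sum_univ_two] using this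
  simp only [PiLp.inner_apply, Fin.sum_univ_two, RCLike.inner_apply, conj_trivial]
  set a := (e : EuclideanSpace ℝ (Fin 2)) 0
  set b := (e : EuclideanSpace ℝ (Fin 2)) 1
  set c := (e' : EuclideanSpace ℝ (Fin 2)) 0
  set d := (e' : EuclideanSpace ℝ (Fin 2)) 1
  have : (1 : ℝ) = (a ^ 2 + b ^ 2) * (c ^ 2 + d ^ 2) := by rw [n1, n2, one_mul]
  linear_combination -this

/-- `1/2 - γ` on the circle, with `γ = (2/π) arccos |t|` the normalised acute angle. -/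
theorem zonal_half_sub_gamma : Zonal 2 (fun t => 1 / 2 - 2 / Real.pi * Real.arccos |t|) := by
  have hb : ∀ t : ℝ, |t| ≤ 1 → |2 * t ^ 2 - 1| ≤ 1 := by
    intro t ht
    have h1 : t ^ 2 ≤ 1 := (sq_le_one_iff_abs_le_one t).mpr ht
    rw [abs_le]; constructor <;> nlinarith [sq_nonneg t]
  have h := (zonal_cos_two.arcsin hb).smul (c := 1 / Real.pi)
    (by have := Real.pi_pos; positivity)
  refine h.congr fun t ht => ?_
  have hpi := Real.pi_pos
  have h0 := Real.arccos_nonneg |t|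
  have h1 : Real.arccos |t| ≤ Real.pi / 2 := Real.arccos_le_pi_div_two.mpr (abs_nonneg t)
  have hc : Real.cos (Real.arccos |t|) = |t| := Real.cos_arccos (by linarith [abs_nonneg t]) ht
  have h2 : 2 * t ^ 2 - 1 = Real.sin (Real.pi / 2 - 2 * Real.arccos |t|) := by
    rw [Real.sin_pi_div_two_sub, Real.cos_two_mul, hc, sq_abs]
  rw [h2, Real.arcsin_sin (by linarith) (by linarith)]
  field_simp

/-! ### Kernels on `[0,1]` -/

theorem PSDI.add {U V : ℝ → ℝ → ℝ} (hU : PSDI U) (hV : PSDI V) :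
    PSDI (fun a b => U a b + V a b) := PSD.add hU hV

theorem PSDI.smul {U : ℝ → ℝ → ℝ} (hU : PSDI U) {c : ℝ} (hc : 0 ≤ c) :
    PSDI (fun a b => c * U a b) := PSD.smul hU hc

theorem PSDI.mul {U V : ℝ → ℝ → ℝ} (hU : PSDI U) (hV : PSDI V) :
    PSDI (fun a b => U a b * V a b) := PSD.mul hU hV

theorem PSDI.rankOne (f : ℝ → ℝ) : PSDI (fun a b => f a * f b) :=
  PSD.rankOne (fun a : Set.Icc (0 : ℝ) 1 => f a)

theorem PSDI.congr {U V : ℝ → ℝ → ℝ} (hU : PSDI U)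
    (h : ∀ a ∈ Set.Icc (0 : ℝ) 1, ∀ b ∈ Set.Icc (0 : ℝ) 1, V a b = U a b) : PSDI V :=
  PSD.congr hU fun x y => h x x.2 y y.2

theorem PSDI.min : PSDI (fun a b => min a b) :=
  PSD.min_real (fun a : Set.Icc (0 : ℝ) 1 => (a : ℝ)) fun a => a.2.1

end H45FT
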